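import Pool.Agent.H97.ERW.Levy

set_option autoImplicit false

/-! The walk driven by independent stacks of arrows has no positive speed unless it escapes. -/

open Filter Topology MeasureTheory

namespace Pool.Agent.H97.ERW

section Moment

variable {V A : Type*} [AddCommGroup V] [DecidableEq V] (lev : V →+ ℤ)
variable [MeasurableSpace A]
variable (Q : Measure (ℕ → A)) [IsProbabilityMeasure Q]

open Classical in
/-- The exponential weight of the number of occurrences. -/
noncomputable def FF (Z : ℕ → Set (Stacks V A)) (N : ℕ) (ξ : Stacks V A) : ENNReal :=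
  ∏ i ∈ Finset.range N, (if ξ ∈ Z i then 256 else 1)

omit [DecidableEq V] [AddCommGroup V] in
lemma measurable_FF {Z : ℕ → Set (Stacks V A)} (hZ : ∀ i, MeasurableSet (Z i)) (N : ℕ) :
    Measurable (FF Z N) := by
  unfold FF
  refine Finset.measurable_prod _ fun i _ => ?_
  exact Measurable.ite (hZ i) measurable_const measurable_const

/-- If the `i`-th event is determined below level `b (i+1)` and has conditional probability at most
`1/256` given the stacks below level `b i`, the exponential moment is at most `2 ^ N`. -/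
lemma lintegral_FF_le {Z : ℕ → Set (Stacks V A)} (hZ : ∀ i, MeasurableSet (Z i)) (b : ℕ → ℤ)
    (hloc : ∀ i j, i < j → ∀ l r, join lev (b j) l r ∈ Z i ↔ l ∈ Z i)
    (hp : ∀ i l, (mu V Q) {r | join lev (b i) l r ∈ Z i} ≤ (256 : ENNReal)⁻¹) (N : ℕ) :
    ∫⁻ ξ, FF Z N ξ ∂(mu V Q) ≤ 2 ^ N := by
  classical
  induction N with
  | zero => simp [FF]
  | succ N ih =>
    rw [lintegral_join lev Q (b N) (measurable_FF hZ (N + 1))]
    have h1 : ∀ l, ∫⁻ r, FF Z (N + 1) (join lev (b N) l r) ∂(mu V Q) ≤ FF Z N l * 2 := by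
      intro l
      have h2 : ∀ r, FF Z (N + 1) (join lev (b N) l r) ≤
          FF Z N l * (1 + {r | join lev (b N) l r ∈ Z N}.indicator (fun _ => (256 : ENNReal)) r) := by
        intro r
        unfold FF
        rw [Finset.prod_range_succ]
        have h3 : ∏ i ∈ Finset.range N, (if join lev (b N) l r ∈ Z i then (256 : ENNReal) else 1)
            = ∏ i ∈ Finset.range N, (if l ∈ Z i then (256 : ENNReal) else 1) := by
          refine Finset.prod_congr rfl fun i hi => ?_
          simp only [hloc i N (by simpa using hi) l r]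
        rw [h3]
        gcongr
        by_cases h4 : join lev (b N) l r ∈ Z N
        · rw [if_pos h4, Set.indicator_of_mem (show r ∈ {r | join lev (b N) l r ∈ Z N} from h4)]
          exact le_add_self
        · rw [if_neg h4, Set.indicator_of_notMem
            (show r ∉ {r | join lev (b N) l r ∈ Z N} from h4)]
          simp
      have hms : MeasurableSet {r | join lev (b N) l r ∈ Z N} :=
        measurable_join_right lev (b N) l (hZ N)
      calc ∫⁻ r, FF Z (N + 1) (join lev (b N) l r) ∂(mu V Q)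
          ≤ ∫⁻ r, FF Z N l * (1 + {r | join lev (b N) l r ∈ Z N}.indicator
              (fun _ => (256 : ENNReal)) r) ∂(mu V Q) := lintegral_mono h2
        _ = FF Z N l * (1 + 256 * (mu V Q) {r | join lev (b N) l r ∈ Z N}) := by
            rw [lintegral_const_mul _ (by fun_prop), lintegral_add_left measurable_const,
              lintegral_indicator hms]
            simp
        _ ≤ FF Z N l * (1 + 256 * (256 : ENNReal)⁻¹) := by
            gcongr
            exact hp N l
        _ = FF Z N l * 2 := by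
            rw [ENNReal.mul_inv_cancel (by norm_num) (by norm_num)]
            norm_num
    calc ∫⁻ l, ∫⁻ r, FF Z (N + 1) (join lev (b N) l r) ∂(mu V Q) ∂(mu V Q)
        ≤ ∫⁻ l, FF Z N l * 2 ∂(mu V Q) := lintegral_mono h1
      _ = (∫⁻ l, FF Z N l ∂(mu V Q)) * 2 := by
          rw [lintegral_mul_const _ (measurable_FF hZ N)]
      _ ≤ 2 ^ N * 2 := by gcongr
      _ = 2 ^ (N + 1) := by rw [pow_succ]

open Classical in
omit [DecidableEq V] [AddCommGroup V] [MeasurableSpace A] in
lemma FF_eq (Z : ℕ → Set (Stacks V A)) (N : ℕ) (ξ : Stacks V A) :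
    FF Z N ξ = 256 ^ ((Finset.range N).filter (fun i => ξ ∈ Z i)).card := by
  unfold FF
  rw [Finset.prod_ite, Finset.prod_const, Finset.prod_const_one, mul_one]

/-- Hence a.s. for all large `N` fewer than a quarter of the first `N` events occur. -/
theorem few {Z : ℕ → Set (Stacks V A)} [hdec : ∀ ξ : Stacks V A, DecidablePred (fun i => ξ ∈ Z i)]
    (hZ : ∀ i, MeasurableSet (Z i)) (b : ℕ → ℤ)
    (hloc : ∀ i j, i < j → ∀ l r, join lev (b j) l r ∈ Z i ↔ l ∈ Z i)
    (hp : ∀ i l, (mu V Q) {r | join lev (b i) l r ∈ Z i} ≤ (256 : ENNReal)⁻¹) :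
    ∀ᵐ ξ ∂(mu V Q), ∀ᶠ N in atTop,
      4 * ((Finset.range N).filter (fun i => ξ ∈ Z i)).card < N := by
  have hFF : ∀ N ξ, FF Z N ξ = 256 ^ ((Finset.range N).filter (fun i => ξ ∈ Z i)).card := by
    intro N ξ
    rw [FF_eq]
    congr 2
    ext i
    simp only [Finset.mem_filter]
  set T : ℕ → Set (Stacks V A) := fun N =>
    {ξ | (4 : ENNReal) ^ N ≤ FF Z N ξ} with hT
  have hTle : ∀ N, (mu V Q) (T N) ≤ (2 : ENNReal)⁻¹ ^ N := by
    intro N
    have h1 := mul_meas_ge_le_lintegral (μ := mu V Q) (measurable_FF hZ N) ((4 : ENNReal) ^ N)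
    have h2 := h1.trans (lintegral_FF_le lev Q hZ b hloc hp N)
    have h4 : (4 : ENNReal) ^ N = 2 ^ N * 2 ^ N := by
      rw [← mul_pow]; norm_num
    have h5 : (2 : ENNReal) ^ N ≠ 0 := by positivity
    have h6 : (2 : ENNReal) ^ N ≠ ⊤ := ENNReal.pow_ne_top (by norm_num)
    have h7 : (2 : ENNReal) ^ N * (2 ^ N * (mu V Q) (T N)) ≤ 2 ^ N * 1 := by
      rw [← mul_assoc, ← h4, mul_one]
      exact h2
    have h8 := (ENNReal.mul_le_mul_iff_right h5 h6).1 h7
    rw [← ENNReal.inv_pow, ENNReal.le_inv_iff_mul_le, mul_comm]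
    exact h8
  have hsum : ∑' N, (mu V Q) (T N) ≠ ⊤ := by
    apply ne_top_of_le_ne_top _ (ENNReal.tsum_le_tsum hTle)
    rw [ENNReal.tsum_geometric]
    simp
  filter_upwards [ae_eventually_notMem hsum] with ξ hξ
  filter_upwards [hξ] with N hN
  by_contra hcon
  push Not at hcon
  apply hN
  simp only [hT, Set.mem_ofPred_eq]
  rw [hFF]
  have : (256 : ENNReal) = 4 ^ 4 := by norm_num
  rw [this, ← pow_mul]
  exact pow_le_pow_right₀ (by norm_num) hcon

end Moment

section Main

variable {V A : Type*} [AddCommGroup V] [DecidableEq V] [Countable V] (vec : A → V)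
  (lev : V →+ ℤ)
variable [Finite A] [TopologicalSpace A] [DiscreteTopology A] [MeasurableSpace A]
  [DiscreteMeasurableSpace A]
variable (Q : Measure (ℕ → A)) [IsProbabilityMeasure Q]

/-- Key estimate for a fixed inverse speed `C`. -/
theorem arrow_walk_C (hlev : ∀ s, lev (vec s) ≤ 1) (C : ℕ) (hC : 1 ≤ C) :
    ∀ᵐ ξ ∂(mu V Q), (∃ k : ℕ, ξ ∉ Bset vec lev (k : ℤ)) →
      ∀ᶠ M : ℕ in atTop, ∀ t ≤ C * M, lp vec lev ξ t < (M : ℤ) := by
  classical
  set K := 8 * C with hK
  obtain ⟨L0, hL0⟩ := uniform vec lev (mu V Q) (aa_mono C) (le_aa hC) hlev K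
    (ε := (512 : ENNReal)⁻¹) (by simp)
  set L := L0 + 1 with hL
  have hLu : ∀ l, Psi lev (mu V Q) (Oset vec lev (aa C) K L) l
      ≤ Psi lev (mu V Q) (Oinf vec lev (aa C) K) l + (512 : ENNReal)⁻¹ := by
    intro l
    refine le_trans ?_ (hL0 l)
    exact measure_mono fun r hr => OP.anti (aa_mono C) (by omega) hr
  -- the events
  set Z : ℕ → Set (Stacks V A) := fun m =>
    Om vec lev (aa C) K L (m : ℤ) ∩
      {ξ | cp lev Q (m : ℤ) (Bset vec lev (m : ℤ)) ξ ≤ (512 : ENNReal)⁻¹} with hZdef
  have hZmeas : ∀ m, MeasurableSet (Z m) := by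
    intro m
    exact (measurableSet_Om vec lev (aa_mono C) K L m).inter
      (measurableSet_le (measurable_cp lev Q m (measurableSet_Bset vec lev m)) measurable_const)
  have hZloc : ∀ m m' : ℕ, m + L ≤ m' → ∀ l r, join lev (m' : ℤ) l r ∈ Z m ↔ l ∈ Z m := by
    intro m m' hmm l r
    have h1 : join lev (m' : ℤ) l r ∈ Om vec lev (aa C) K L (m : ℤ) ↔
        l ∈ Om vec lev (aa C) K L (m : ℤ) := by
      have hag : ∀ y, lev y < (m : ℤ) + L → join lev (m' : ℤ) l r y = l y := by
        intro y hy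
        exact join_of_lt lev (by omega)
      exact ⟨fun h => Om.of_agree vec lev hlev (by omega) hag h,
        fun h => Om.of_agree vec lev hlev (by omega) (fun y hy => (hag y hy).symm) h⟩
    have h2 : cp lev Q (m : ℤ) (Bset vec lev (m : ℤ)) (join lev (m' : ℤ) l r)
        = cp lev Q (m : ℤ) (Bset vec lev (m : ℤ)) l := by
      unfold cp
      simp only [join_join lev (show (m : ℤ) ≤ (m' : ℤ) by omega)]
    simp only [hZdef, Set.mem_inter_iff, Set.mem_ofPred_eq, h1, h2]
  have hZp : ∀ (m : ℕ) l, (mu V Q) {r | join lev (m : ℤ) l r ∈ Z m} ≤ (256 : ENNReal)⁻¹ := by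
    intro m l
    by_cases hl : cp lev Q (m : ℤ) (Bset vec lev (m : ℤ)) l ≤ (512 : ENNReal)⁻¹
    · calc (mu V Q) {r | join lev (m : ℤ) l r ∈ Z m}
          ≤ (mu V Q) {r | join lev (m : ℤ) l r ∈ Om vec lev (aa C) K L (m : ℤ)} :=
            measure_mono fun r hr => hr.1
        _ ≤ hh vec lev Q m m l + (512 : ENNReal)⁻¹ :=
            level_ineq vec lev Q (aa_mono C) (le_aa hC) hlev hLu (by omega) l
        _ ≤ (512 : ENNReal)⁻¹ + (512 : ENNReal)⁻¹ := by
            gcongr
            exact hl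
        _ = (256 : ENNReal)⁻¹ := by
            have : (512 : ENNReal) = 2 * 256 := by norm_num
            rw [this, ENNReal.mul_inv (by norm_num) (by norm_num), ← add_mul,
              ENNReal.inv_two_add_inv_two, one_mul]
    · have : {r | join lev (m : ℤ) l r ∈ Z m} = ∅ := by
        rw [Set.eq_empty_iff_forall_notMem]
        rintro r ⟨_, h2⟩
        apply hl
        have h3 : cp lev Q (m : ℤ) (Bset vec lev (m : ℤ)) (join lev (m : ℤ) l r)
            = cp lev Q (m : ℤ) (Bset vec lev (m : ℤ)) l := by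
          unfold cp
          simp only [join_join lev (le_refl (m : ℤ))]
        simp only [Set.mem_ofPred_eq] at h2
        rwa [h3] at h2
      rw [this]; simp
  -- few occurrences in each residue class
  have hfew : ∀ᵐ ξ ∂(mu V Q), ∀ r < L, ∀ᶠ N in atTop,
      4 * ((Finset.range N).filter (fun i => ξ ∈ Z (r + i * L))).card < N := by
    rw [ae_all_iff]
    intro r
    have h := few lev Q (Z := fun i => Z (r + i * L)) (fun i => hZmeas _)
      (fun i => ((r + i * L : ℕ) : ℤ)) (fun i j hij l r' => by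
        refine hZloc _ _ ?_ l r'
        have : (i + 1) * L ≤ j * L := Nat.mul_le_mul_right L hij
        linarith) (fun i l => hZp _ l)
    filter_upwards [h] with ξ hξ _
    exact hξ
  have hlevy : ∀ᵐ ξ ∂(mu V Q), ∀ k : ℕ, ξ ∉ Bset vec lev (k : ℤ) →
      Tendsto (fun m : ℕ => cp lev Q m (Bset vec lev (k : ℤ)) ξ) atTop (𝓝 0) := by
    rw [ae_all_iff]
    intro k
    exact levy lev Q (measurableSet_Bset vec lev k)
  filter_upwards [hfew, hlevy] with ξ hξ1 hξ2 hξ3
  obtain ⟨k, hk⟩ := hξ3
  -- from some level on the conditional probability is small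
  obtain ⟨m0, hm0⟩ : ∃ m0, ∀ m : ℕ, m0 ≤ m →
      cp lev Q (m : ℤ) (Bset vec lev (m : ℤ)) ξ ≤ (512 : ENNReal)⁻¹ := by
    have h1 : ∀ᶠ m : ℕ in atTop, cp lev Q m (Bset vec lev (k : ℤ)) ξ < (512 : ENNReal)⁻¹ :=
      (hξ2 k hk).eventually_lt_const (by simp)
    rw [eventually_atTop] at h1
    obtain ⟨m1, hm1⟩ := h1
    refine ⟨max m1 k, fun m hm => ?_⟩
    refine le_trans ?_ (hm1 m (by omega)).le
    unfold cp
    apply measure_mono
    intro r hr
    exact Bset.anti vec lev (by omega) hr
  -- a common bound for the residue classes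
  obtain ⟨N0, hN0⟩ : ∃ N0, ∀ r < L, ∀ N, N0 ≤ N →
      4 * ((Finset.range N).filter (fun i => ξ ∈ Z (r + i * L))).card < N := by
    have h1 : ∀ r ∈ Finset.range L, ∀ᶠ N in atTop,
        4 * ((Finset.range N).filter (fun i => ξ ∈ Z (r + i * L))).card < N :=
      fun r hr => hξ1 r (by simpa using hr)
    have h2 := (Finset.eventually_all _).2 h1
    rw [eventually_atTop] at h2
    obtain ⟨N0, hN0⟩ := h2
    exact ⟨N0, fun r hr N hN => hN0 N hN r (by simpa using hr)⟩
  filter_upwards [eventually_ge_atTop (N0 * L + 5 * L + 4 * m0 + 1)] with M hM t ht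
  by_contra hcon
  push Not at hcon
  -- many good levels
  have hbad := card_bad_le (p := lp vec lev ξ) (M := M) C L hC ht hcon
    (fun m => ξ ∈ Om vec lev (aa C) K L (m : ℤ)) (by
      rintro m ⟨n, ⟨h1, h2⟩, h3⟩
      have h4 : IsHit vec lev (m : ℤ) n ξ := ⟨h1, h2⟩
      refine ⟨n, h4, ?_⟩
      simp only [Oset, Set.mem_ofPred_eq]
      have h5 : lp vec lev ((G vec)^[n] ξ) = fun i => lp vec lev ξ (n + i) - m := by
        funext i
        rw [lp_add, h4.eq vec lev hlev (by omega)]
        ring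
      rw [h5]
      exact h3)
  have hsplit := Finset.card_filter_add_card_filter_not (s := Finset.range M)
    (fun m : ℕ => ξ ∈ Om vec lev (aa C) K L (m : ℤ))
  rw [Finset.card_range] at hsplit
  -- most of them belong to the events
  have hsub : (Finset.range M).filter (fun m : ℕ => ξ ∈ Om vec lev (aa C) K L (m : ℤ)) ⊆
      (Finset.range m0) ∪ (Finset.range M).filter (fun m : ℕ => ξ ∈ Z m) := by
    intro m hm
    rw [Finset.mem_filter] at hm
    rw [Finset.mem_union, Finset.mem_filter, Finset.mem_range]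
    rcases Nat.lt_or_ge m m0 with h | h
    · exact Or.inl h
    · exact Or.inr ⟨hm.1, hm.2, hm0 m h⟩
  have hc1 := (Finset.card_le_card hsub).trans (Finset.card_union_le _ _)
  rw [Finset.card_range] at hc1
  -- but there are few
  set N := M / L + 1 with hN
  have hLpos : 0 < L := by omega
  have hN0N : N0 ≤ N := by
    have : N0 ≤ M / L := (Nat.le_div_iff_mul_le hLpos).2 (by omega)
    omega
  have hsub2 : (Finset.range M).filter (fun m : ℕ => ξ ∈ Z m) ⊆
      (Finset.range L).biUnion (fun r =>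
        ((Finset.range N).filter (fun i => ξ ∈ Z (r + i * L))).image (fun i => r + i * L)) := by
    intro m hm
    rw [Finset.mem_filter, Finset.mem_range] at hm
    simp only [Finset.mem_biUnion, Finset.mem_range, Finset.mem_image, Finset.mem_filter]
    have hdm : m % L + m / L * L = m := by
      rw [Nat.mul_comm]; exact Nat.mod_add_div m L
    refine ⟨m % L, Nat.mod_lt _ hLpos, m / L, ⟨?_, ?_⟩, hdm⟩
    · have := Nat.div_le_div_right (c := L) hm.1.le
      omega
    · rw [hdm]; exact hm.2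
  have hc2 : ((Finset.range M).filter (fun m : ℕ => ξ ∈ Z m)).card ≤
      ∑ r ∈ Finset.range L, ((Finset.range N).filter (fun i => ξ ∈ Z (r + i * L))).card := by
    refine (Finset.card_le_card hsub2).trans (Finset.card_biUnion_le.trans ?_)
    exact Finset.sum_le_sum fun r _ => Finset.card_image_le
  have hc3 : 4 * ∑ r ∈ Finset.range L,
      ((Finset.range N).filter (fun i => ξ ∈ Z (r + i * L))).card ≤ L * N := by
    rw [Finset.mul_sum]
    calc _ ≤ ∑ r ∈ Finset.range L, N := by
          apply Finset.sum_le_sum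
          intro r hr
          exact (hN0 r (by simpa using hr) N hN0N).le
      _ = L * N := by simp
  have hc4 : L * N ≤ M + L := by
    rw [hN, Nat.mul_add, Nat.mul_one]
    have := Nat.mul_div_le M L
    omega
  omega

/-- **Main theorem for arrow stacks.** Almost surely, unless the level of the walk tends to
infinity, its speed in this direction is at most zero. -/
theorem arrow_walk (hlev : ∀ s, lev (vec s) ≤ 1) :
    ∀ᵐ ξ ∂(mu V Q), ¬ Tendsto (lp vec lev ξ) atTop atTop →
      ∀ c : ℝ, 0 < c → ∀ᶠ n : ℕ in atTop, (lp vec lev ξ n : ℝ) ≤ c * n := by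
  have h1 : ∀ᵐ ξ ∂(mu V Q), ∀ C : ℕ, 1 ≤ C → (∃ k : ℕ, ξ ∉ Bset vec lev (k : ℤ)) →
      ∀ᶠ M : ℕ in atTop, ∀ t ≤ C * M, lp vec lev ξ t < (M : ℤ) := by
    rw [ae_all_iff]
    intro C
    by_cases hC : 1 ≤ C
    · filter_upwards [arrow_walk_C vec lev Q hlev C hC] with ξ hξ _
      exact hξ
    · exact Eventually.of_forall fun ξ h => absurd h hC
  filter_upwards [h1] with ξ hξ hnt c hc
  have hk : ∃ k : ℕ, ξ ∉ Bset vec lev (k : ℤ) := by
    by_contra hcon
    push Not at hcon
    apply hnt
    rw [tendsto_atTop_atTop]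
    intro b
    obtain ⟨n0, hn0⟩ := hcon b.toNat
    exact ⟨n0, fun n hn => (Int.self_le_toNat b).trans (hn0 n hn)⟩
  obtain ⟨C, hC⟩ := exists_nat_gt (1 / c)
  have hC0 : (0 : ℝ) < C := lt_trans (by positivity) hC
  have hC1 : 1 ≤ C := by exact_mod_cast hC0
  have h2 := hξ C hC1 hk
  rw [eventually_atTop] at h2
  obtain ⟨M0, hM0⟩ := h2
  obtain ⟨n1, hn1⟩ := exists_nat_gt ((M0 : ℝ) / c)
  filter_upwards [eventually_ge_atTop n1] with n hn
  by_contra hcon
  push Not at hcon
  have hn' : (n1 : ℝ) ≤ n := by exact_mod_cast hn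
  have h3 : (M0 : ℝ) < c * n := by
    have := (div_lt_iff₀ hc).1 hn1
    nlinarith
  have h4 : (M0 : ℝ) < (lp vec lev ξ n : ℝ) := h3.trans hcon
  have h5 : (M0 : ℤ) < lp vec lev ξ n := by exact_mod_cast h4
  set M := (lp vec lev ξ n).toNat with hM
  have h6 : (M : ℤ) = lp vec lev ξ n := by rw [hM]; exact Int.toNat_of_nonneg (by omega)
  have h7 : M0 ≤ M := by omega
  have h8 : n ≤ C * M := by
    have h9 : (n : ℝ) ≤ C * M := by
      have h10 : (M : ℝ) = (lp vec lev ξ n : ℝ) := by exact_mod_cast h6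
      rw [h10]
      have h11 : 1 < C * c := by
        have := (div_lt_iff₀ hc).1 hC
        linarith
      have h12 : (0 : ℝ) ≤ n := by positivity
      nlinarith
    exact_mod_cast h9
  have h9 := hM0 M h7 n h8
  omega

end Main

end Pool.Agent.H97.ERW
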