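import Pool.Agent.H97.ERW.Path

set_option autoImplicit false

/-! Counting the levels at which a path that reaches level `M` within time `C * M` is not good. -/

open Filter Topology

namespace Pool.Agent.H97.ERW

/-- The time scales. -/
def aa (C : ℕ) (j : ℕ) : ℕ := 8 * C * j * 2 ^ j

lemma aa_mono (C : ℕ) : Monotone (aa C) := by
  intro i j h
  unfold aa
  gcongr
  norm_num

lemma le_aa {C : ℕ} (hC : 1 ≤ C) (L : ℕ) : L ≤ aa C L := by
  unfold aa
  have h1 : 1 ≤ 2 ^ L := Nat.one_le_two_pow
  calc L = 1 * 1 * L * 1 := by ring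
    _ ≤ 8 * C * L * 2 ^ L := by gcongr; omega

/-- The level `m` is good for the path `p` up to scale `L`. -/
def Good (a : ℕ → ℕ) (K L : ℕ) (p : ℕ → ℤ) (m : ℕ) : Prop :=
  ∃ n, ((m : ℤ) ≤ p n ∧ ∀ k < n, p k < (m : ℤ)) ∧ OP a K L (fun i => p (n + i) - m)

section

variable {p : ℕ → ℤ} {M : ℕ}

/-- The first time at which the path is at level at least `m`. -/
noncomputable def TT (p : ℕ → ℤ) (m : ℕ) : ℕ := sInf {n | (m : ℤ) ≤ p n}

lemma TT_min {m k : ℕ} (h : k < TT p m) : p k < (m : ℤ) := by
  have := Nat.notMem_of_lt_sInf h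
  simpa using this

lemma TT_mem {t : ℕ} (hpt : (M : ℤ) ≤ p t) {m : ℕ} (hm : m ≤ M) : (m : ℤ) ≤ p (TT p m) := by
  have : (TT p m) ∈ {n | (m : ℤ) ≤ p n} :=
    Nat.sInf_mem ⟨t, le_trans (by exact_mod_cast hm) hpt⟩
  simpa using this

lemma TT_eq (h0 : p 0 = 0) (hs : ∀ n, p (n + 1) ≤ p n + 1) {t : ℕ} (hpt : (M : ℤ) ≤ p t)
    {m : ℕ} (hm : m ≤ M) : p (TT p m) = m := by
  have h1 := TT_mem hpt hm
  rcases Nat.eq_zero_or_pos (TT p m) with h | h
  · rw [h] at h1 ⊢
    rw [h0] at h1 ⊢
    omega
  · obtain ⟨n, hn⟩ : ∃ n, TT p m = n + 1 := ⟨TT p m - 1, by omega⟩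
    have h2 : p n < (m : ℤ) := TT_min (by omega)
    have h3 := hs n
    rw [hn] at h1 ⊢
    omega

lemma TT_mono {t : ℕ} (hpt : (M : ℤ) ≤ p t) {m m' : ℕ} (h : m ≤ m') (hm : m' ≤ M) :
    TT p m ≤ TT p m' := by
  apply Nat.sInf_le
  exact le_trans (by exact_mod_cast h) (TT_mem hpt hm)

lemma TT_le {t : ℕ} (hpt : (M : ℤ) ≤ p t) : TT p M ≤ t := Nat.sInf_le hpt

lemma sum_diff (T : ℕ → ℤ) (j N : ℕ) :
    ∑ m ∈ Finset.range N, (T (m + j) - T m) = ∑ i ∈ Finset.range j, (T (N + i) - T i) := by
  induction N with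
  | zero => simp
  | succ N ih =>
    rw [Finset.sum_range_succ, ih]
    have h1 : ∑ i ∈ Finset.range j, (T (N + 1 + i) - T i)
        = ∑ i ∈ Finset.range j, (T (N + i) - T i)
          + ∑ i ∈ Finset.range j, (T (N + (i + 1)) - T (N + i)) := by
      rw [← Finset.sum_add_distrib]
      refine Finset.sum_congr rfl fun i _ => ?_
      rw [show N + 1 + i = N + (i + 1) by ring]
      ring
    rw [h1, Finset.sum_range_sub (fun i => T (N + i))]
    simp

lemma bad1 (C : ℕ) (hC : 1 ≤ C) {t : ℕ} (ht : t ≤ C * M) (hpt : (M : ℤ) ≤ p t) :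
    8 * ((Finset.range M).filter (fun m : ℕ =>
      8 * C < ((Finset.range (TT p M)).filter (fun k => p k = (m : ℤ))).card)).card ≤ M := by
  classical
  set B := (Finset.range M).filter (fun m : ℕ =>
      8 * C < ((Finset.range (TT p M)).filter (fun k => p k = (m : ℤ))).card) with hB
  have h1 : B.card * (8 * C) ≤
      ∑ m ∈ B, ((Finset.range (TT p M)).filter (fun k => p k = (m : ℤ))).card := by
    rw [← smul_eq_mul]
    apply Finset.card_nsmul_le_sum
    intro m hm
    rw [hB, Finset.mem_filter] at hm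
    exact hm.2.le
  have h2 : ∑ m ∈ B, ((Finset.range (TT p M)).filter (fun k => p k = (m : ℤ))).card ≤ TT p M := by
    rw [← Finset.card_biUnion]
    · calc _ ≤ (Finset.range (TT p M)).card := by
            apply Finset.card_le_card
            intro x hx
            simp only [Finset.mem_biUnion, Finset.mem_filter] at hx
            obtain ⟨_, _, h, _⟩ := hx
            exact h
        _ = _ := Finset.card_range _
    · intro m _ m' _ hne
      rw [Function.onFun, Finset.disjoint_left]
      intro x hx hx'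
      simp only [Finset.mem_filter] at hx hx'
      apply hne
      exact_mod_cast hx.2.symm.trans hx'.2
  have h3 := TT_le hpt
  have h4 : B.card * (8 * C) ≤ C * M := h1.trans (h2.trans (h3.trans ht))
  have h5 : C * (8 * B.card) ≤ C * M := by linarith [h4]
  exact Nat.le_of_mul_le_mul_left h5 hC

lemma bad2 (C : ℕ) (hC : 1 ≤ C) {t : ℕ} (ht : t ≤ C * M) (hpt : (M : ℤ) ≤ p t)
    {j : ℕ} (hj : 1 ≤ j) :
    8 * 2 ^ j * ((Finset.range M).filter (fun m : ℕ =>
      m + j ≤ M ∧ aa C j < TT p (m + j) - TT p m)).card ≤ M := by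
  classical
  set B := (Finset.range M).filter (fun m : ℕ =>
      m + j ≤ M ∧ aa C j < TT p (m + j) - TT p m) with hB
  by_cases hjM : M < j
  · have : B = ∅ := by
      rw [hB, Finset.filter_eq_empty_iff]
      intro m _ h
      omega
    rw [this]; simp
  push Not at hjM
  have hsub : B ⊆ Finset.range (M + 1 - j) := by
    intro m hm
    rw [hB, Finset.mem_filter] at hm
    simp only [Finset.mem_range]
    omega
  have h1 : (B.card : ℤ) * (aa C j : ℤ) ≤
      ∑ m ∈ B, ((TT p (m + j) : ℤ) - TT p m) := by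
    rw [← nsmul_eq_mul]
    apply Finset.card_nsmul_le_sum
    intro m hm
    rw [hB, Finset.mem_filter] at hm
    have := hm.2.2
    omega
  have h2 : ∑ m ∈ B, ((TT p (m + j) : ℤ) - TT p m)
      ≤ ∑ m ∈ Finset.range (M + 1 - j), ((TT p (m + j) : ℤ) - TT p m) := by
    apply Finset.sum_le_sum_of_subset_of_nonneg hsub
    intro m hm _
    simp only [Finset.mem_range] at hm
    have := TT_mono hpt (show m ≤ m + j by omega) (show m + j ≤ M by omega)
    omega
  have h3 : ∑ m ∈ Finset.range (M + 1 - j), ((TT p (m + j) : ℤ) - TT p m)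
      ≤ (j : ℤ) * ((C : ℤ) * M) := by
    rw [sum_diff (fun m => (TT p m : ℤ)) j (M + 1 - j)]
    calc ∑ i ∈ Finset.range j, ((TT p (M + 1 - j + i) : ℤ) - TT p i)
        ≤ ∑ i ∈ Finset.range j, ((C : ℤ) * M) := by
          apply Finset.sum_le_sum
          intro i hi
          simp only [Finset.mem_range] at hi
          have h4 := TT_mono hpt (show M + 1 - j + i ≤ M by omega) le_rfl
          have h5 := (TT_le hpt).trans ht
          have h6 : ((TT p (M + 1 - j + i) : ℕ) : ℤ) ≤ (C : ℤ) * M := by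
            exact_mod_cast h4.trans h5
          linarith [Int.natCast_nonneg (TT p i)]
      _ = _ := by simp
  have h4 : (B.card : ℤ) * (aa C j : ℤ) ≤ (j : ℤ) * ((C : ℤ) * M) := h1.trans (h2.trans h3)
  have h5 : B.card * aa C j ≤ j * (C * M) := by exact_mod_cast h4
  unfold aa at h5
  have h6 : (C * j) * (8 * 2 ^ j * B.card) ≤ (C * j) * M := by
    calc (C * j) * (8 * 2 ^ j * B.card) = B.card * (8 * C * j * 2 ^ j) := by ring
      _ ≤ j * (C * M) := h5
      _ = _ := by ring
  exact Nat.le_of_mul_le_mul_left h6 (by positivity)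

theorem card_bad_le (C L : ℕ) (hC : 1 ≤ C)
    {t : ℕ} (ht : t ≤ C * M) (hpt : (M : ℤ) ≤ p t) (P : ℕ → Prop) [DecidablePred P]
    (hP : ∀ m, Good (aa C) (8 * C) L p m → P m) :
    4 * ((Finset.range M).filter (fun m => ¬ P m)).card ≤ M + 4 * L := by
  classical
  set B1 := (Finset.range M).filter (fun m : ℕ =>
      8 * C < ((Finset.range (TT p M)).filter (fun k => p k = (m : ℤ))).card) with hB1
  set B2 : ℕ → Finset ℕ := fun j => (Finset.range M).filter (fun m : ℕ =>
      m + j ≤ M ∧ aa C j < TT p (m + j) - TT p m) with hB2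
  set B3 := (Finset.range M).filter (fun m : ℕ => M < m + L) with hB3
  have hgood : ∀ m ∈ Finset.range M, m ∉ B1 → (∀ j ∈ Finset.Icc 1 L, m ∉ B2 j) → m ∉ B3 →
      Good (aa C) (8 * C) L p m := by
    intro m hm h1 h2 h3
    have hm' : m < M := by simpa using hm
    have h1' : ((Finset.range (TT p M)).filter (fun k => p k = (m : ℤ))).card ≤ 8 * C := by
      by_contra hc
      exact h1 (by rw [hB1, Finset.mem_filter]; exact ⟨hm, by omega⟩)
    have h3' : m + L ≤ M := by
      by_contra hc
      exact h3 (by rw [hB3, Finset.mem_filter]; exact ⟨hm, by omega⟩)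
    have h2' : ∀ j, 1 ≤ j → j ≤ L → TT p (m + j) - TT p m ≤ aa C j := by
      intro j hj hjL
      by_contra hc
      exact h2 j (by simp [hj, hjL])
        (by simp only [hB2, Finset.mem_filter]; exact ⟨hm, by omega, by omega⟩)
    refine ⟨TT p m, ⟨TT_mem hpt hm'.le, fun k hk => TT_min hk⟩, ?_, ?_⟩
    · intro j hj hjL
      refine ⟨TT p (m + j) - TT p m, h2' j hj hjL, ?_⟩
      have h4 := TT_mono hpt (show m ≤ m + j by omega) (show m + j ≤ M by omega)
      have h5 := TT_mem hpt (show m + j ≤ M by omega)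
      simp only
      rw [Nat.add_sub_cancel' h4]
      push_cast at h5
      linarith
    · intro n hn hk
      have h4 : TT p m + n < TT p (m + L) := by
        by_contra hc
        push Not at hc
        have h5 := TT_mono hpt (show m ≤ m + L by omega) h3'
        have h6 := hk (TT p (m + L) - TT p m) (by omega)
        simp only at h6
        rw [Nat.add_sub_cancel' h5] at h6
        have h7 := TT_mem hpt h3'
        push_cast at h7
        linarith
      have h5 := TT_mono hpt h3' le_rfl
      refine le_trans ?_ h1'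
      apply Finset.card_le_card_of_injOn (fun k => TT p m + k)
      · intro k hk'
        simp only [Finset.coe_filter, Finset.mem_range, Set.mem_ofPred_eq] at hk' ⊢
        refine ⟨by omega, by linarith [hk'.2]⟩
      · intro x _ y _ hxy
        simpa using hxy
  have hsub : (Finset.range M).filter (fun m => ¬ P m) ⊆
      (B1 ∪ (Finset.Icc 1 L).biUnion B2) ∪ B3 := by
    intro m hm
    rw [Finset.mem_filter] at hm
    by_contra hc
    simp only [Finset.mem_union, Finset.mem_biUnion, not_or, not_exists, not_and] at hc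
    exact hm.2 (hP m (hgood m hm.1 hc.1.1 hc.1.2 hc.2))
  have hc1 : 8 * B1.card ≤ M := bad1 C hC ht hpt
  have hc2 : ∀ j, 1 ≤ j → 8 * 2 ^ j * (B2 j).card ≤ M := fun j hj => bad2 C hC ht hpt hj
  have hc3 : B3.card ≤ L := by
    calc B3.card ≤ (Finset.Ico (M - L) M).card := by
          apply Finset.card_le_card
          intro m hm
          rw [hB3, Finset.mem_filter] at hm
          simp only [Finset.mem_range] at hm
          simp only [Finset.mem_Ico]
          omega
      _ ≤ L := by simp; omega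
  have hc4 : ∀ N, 8 * (∑ j ∈ Finset.Icc 1 N, (B2 j).card) * 2 ^ N + M ≤ M * 2 ^ N := by
    intro N
    induction N with
    | zero => simp
    | succ N ih =>
      rw [Finset.sum_Icc_succ_top (by omega)]
      have h7 := hc2 (N + 1) (by omega)
      rw [pow_succ] at h7 ⊢
      nlinarith [h7, ih]
  have hc5 : 8 * (∑ j ∈ Finset.Icc 1 L, (B2 j).card) ≤ M := by
    have h7 := hc4 L
    have h8 : 0 < 2 ^ L := by positivity
    have h9 : 8 * (∑ j ∈ Finset.Icc 1 L, (B2 j).card) * 2 ^ L ≤ M * 2 ^ L := by omega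
    exact Nat.le_of_mul_le_mul_right h9 h8
  have hcard := Finset.card_le_card hsub
  have hu1 := Finset.card_union_le (B1 ∪ (Finset.Icc 1 L).biUnion B2) B3
  have hu2 := Finset.card_union_le B1 ((Finset.Icc 1 L).biUnion B2)
  have hu3 : ((Finset.Icc 1 L).biUnion B2).card ≤ ∑ j ∈ Finset.Icc 1 L, (B2 j).card :=
    Finset.card_biUnion_le
  omega

end

end Pool.Agent.H97.ERW
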