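import Pool.Agent.H97.ERW.PathLaw
import Pool.Agent.H97.ERW.Arrow

set_option autoImplicit false

/-! The walk driven by random stacks of arrows has the law of the excited random walk. -/

open Filter Topology MeasureTheory ProbabilityTheory unitInterval

namespace Pool.Agent.H97.ERW

section Uniform

variable {ι κ X : Type*} [MeasurableSpace X] (ν : Measure X) [IsProbabilityMeasure ν]

/-- The probability of a cylinder under an iterated product. -/
lemma infinitePi_cylinder_pairs (n : ℕ) (q : ℕ → ι × κ) (T : ℕ → Set X)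
    (hq : ∀ j < n, ∀ k < n, q j = q k → j = k) (hT : ∀ k, MeasurableSet (T k)) :
    (Measure.infinitePi (fun _ : ι => Measure.infinitePi (fun _ : κ => ν)))
      {U | ∀ k < n, U (q k).1 (q k).2 ∈ T k} = ∏ k ∈ Finset.range n, ν (T k) := by
  classical
  rw [← Measure.infinitePi_map_curry (fun (_ : ι) (_ : κ) => ν)]
  rw [MeasurableEquiv.map_apply]
  set S : Finset (ι × κ) := (Finset.range n).image q with hS
  set t : ι × κ → Set X := fun p => ⋂ k : ℕ, ⋂ _ : k < n ∧ q k = p, T k with ht
  have h1 : (MeasurableEquiv.curry ι κ X) ⁻¹' {U | ∀ k < n, U (q k).1 (q k).2 ∈ T k}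
      = Set.pi (S : Set (ι × κ)) t := by
    ext V
    simp only [Set.mem_preimage, Set.mem_ofPred_eq, Set.mem_pi, hS, Finset.coe_image,
      Set.mem_image, Finset.mem_coe, Finset.mem_range, ht, Set.mem_iInter]
    constructor
    · rintro h p - k ⟨hk, rfl⟩
      exact h k hk
    · intro h k hk
      exact h (q k) ⟨k, hk, rfl⟩ k ⟨hk, rfl⟩
  rw [h1, Measure.infinitePi_pi, hS, Finset.prod_image]
  · refine Finset.prod_congr rfl fun k hk => ?_
    have h2 : t (q k) = T k := by
      ext x
      simp only [ht, Set.mem_iInter]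
      constructor
      · intro h
        exact h k ⟨by simpa using hk, rfl⟩
      · rintro h j ⟨hj, hjk⟩
        have := hq j hj k (by simpa using hk) hjk
        subst this
        exact h
    rw [h2]
  · intro j hj k hk h
    exact hq j (by simpa using hj) k (by simpa using hk) h
  · intro p _
    exact MeasurableSet.iInter fun k => MeasurableSet.iInter fun _ => hT k

end Uniform

section Law

variable {d : ℕ}

/-- The law on directions with weights `p`, if these are probabilities. -/
noncomputable def stepLaw (s₀ : Dir d) (p : Dir d → ℝ) : Measure (Dir d) :=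
  if ∑ s, ENNReal.ofReal (p s) = 1 then ∑ s, ENNReal.ofReal (p s) • Measure.dirac s
  else Measure.dirac s₀

lemma measurable_stepLaw (s₀ : Dir d) : Measurable (stepLaw s₀) := by
  unfold stepLaw
  refine Measurable.ite ?_ ?_ measurable_const
  · have : Measurable (fun p : Dir d → ℝ => ∑ s, ENNReal.ofReal (p s)) := by fun_prop
    exact this (measurableSet_singleton 1)
  · refine Measure.measurable_of_measurable_coe _ fun A hA => ?_
    simp only [Measure.finsetSum_apply, Measure.smul_apply, smul_eq_mul]
    fun_prop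

/-- The step law as a kernel. -/
noncomputable def stepKernel (s₀ : Dir d) : Kernel (Dir d → ℝ) (Dir d) :=
  ⟨stepLaw s₀, measurable_stepLaw s₀⟩

instance (s₀ : Dir d) : IsMarkovKernel (stepKernel s₀) := by
  refine ⟨fun p => ?_⟩
  show IsProbabilityMeasure (stepLaw s₀ p)
  unfold stepLaw
  split_ifs with h
  · refine ⟨?_⟩
    simp only [Measure.finsetSum_apply, Measure.smul_apply, smul_eq_mul, measure_univ, mul_one]
    exact h
  · infer_instance

lemma stepKernel_singleton (s₀ : Dir d) (p : Dir d → ℝ) (h0 : ∀ s, 0 ≤ p s)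
    (h1 : ∑ s, p s = 1) (s : Dir d) : stepKernel s₀ p {s} = ENNReal.ofReal (p s) := by
  show stepLaw s₀ p {s} = _
  unfold stepLaw
  rw [if_pos]
  · simp only [Measure.finsetSum_apply, Measure.smul_apply, smul_eq_mul]
    rw [Finset.sum_eq_single s]
    · simp
    · intro t _ hts
      rw [Measure.dirac_apply' _ (measurableSet_singleton s)]
      simp [hts]
    · simp
  · rw [← ENNReal.ofReal_sum_of_nonneg fun s _ => h0 s, h1, ENNReal.ofReal_one]

theorem exists_step_function [Nonempty (Dir d)] :
    ∃ f : (Dir d → ℝ) → I → Dir d, Measurable (Function.uncurry f) ∧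
      ∀ p : Dir d → ℝ, (∀ s, 0 ≤ p s) → ∑ s, p s = 1 →
        ∀ s, volume {u : I | f p u = s} = ENNReal.ofReal (p s) := by
  obtain ⟨s₀⟩ := (inferInstance : Nonempty (Dir d))
  obtain ⟨f, hf, hfκ⟩ := (stepKernel s₀).exists_measurable_map_eq_unitInterval
  refine ⟨f, hf, fun p h0 h1 s => ?_⟩
  rw [← stepKernel_singleton s₀ p h0 h1 s, ← hfκ p,
    Measure.map_apply (by fun_prop) (measurableSet_singleton s)]
  rfl

end Law

section Follow

variable {d : ℕ}

lemma visits_lt {x : ℕ → Site d} {j k : ℕ} (hjk : j < k) (h : x j = x k) :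
    visits x j < visits x k := by
  unfold visits
  apply Finset.card_lt_card
  rw [Finset.ssubset_iff_of_subset]
  · exact ⟨j, by simp [hjk, h], by simp⟩
  · intro i hi
    simp only [Finset.mem_filter, Finset.mem_range] at hi ⊢
    exact ⟨by omega, by rw [hi.2, h]⟩

lemma pair_inj {x : ℕ → Site d} {j k : ℕ} (h : x j = x k) (hv : visits x j = visits x k) :
    j = k := by
  rcases lt_trichotomy j k with h1 | h1 | h1
  · have := visits_lt h1 h; omega
  · exact h1
  · have := visits_lt h1 h.symm; omega

lemma follow_iff (s : ℕ → Dir d) (n : ℕ) (ξ : Stacks (Site d) (Dir d)) :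
    (∀ k ≤ n, pos unit k ξ = yy s k) ↔ ∀ k < n, ξ (yy s k) (visits (yy s) k) = s k := by
  induction n with
  | zero =>
    simp [yy]
  | succ n ih =>
    have h1 : (∀ k ≤ n, pos unit k ξ = yy s k) →
        (pos unit (n + 1) ξ = yy s (n + 1) ↔ ξ (yy s n) (visits (yy s) n) = s n) := by
      intro h
      have h2 : cnt unit n ξ (pos unit n ξ) = visits (yy s) n := by
        have : cnt unit n ξ (pos unit n ξ) = visits (fun k => pos unit k ξ) n := rfl
        rw [this]
        exact visits_congr h
      rw [pos_succ, arrow_eq, h2, h n le_rfl, yy_succ, add_right_inj, unit_injective.eq_iff]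
    constructor
    · intro h k hk
      have h3 : ∀ k ≤ n, pos unit k ξ = yy s k := fun k hk => h k (by omega)
      rcases Nat.lt_or_ge k n with h4 | h4
      · exact ih.1 h3 k h4
      · obtain rfl : k = n := by omega
        exact (h1 h3).1 (h (k + 1) le_rfl)
    · intro h k hk
      have h3 : ∀ k ≤ n, pos unit k ξ = yy s k := ih.2 fun k hk => h k (by omega)
      rcases Nat.lt_or_ge k (n + 1) with h4 | h4
      · exact h3 k (by omega)
      · obtain rfl : k = n + 1 := by omega
        exact (h1 h3).2 (h n (by omega))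

end Follow

section Couple

variable {Ω : Type*} [MeasurableSpace Ω] {d : ℕ} {P : Measure Ω} {ω : Ω → Env d}
  {X : ℕ → Ω → Site d}

/-- Uniform variables for all sites and visits. -/
abbrev Unif (d : ℕ) := Site d → ℕ → I

/-- Their law. -/
noncomputable def muU (d : ℕ) : Measure (Unif d) :=
  Measure.infinitePi (fun _ : Site d => Measure.infinitePi (fun _ : ℕ => (volume : Measure I)))

instance : IsProbabilityMeasure (muU d) := by unfold muU; infer_instance

/-- The arrows. -/
def arrows (f : (Dir d → ℝ) → I → Dir d) (ω : Ω → Env d) (p : Ω × Unif d) :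
    Stacks (Site d) (Dir d) := fun z i => f (ω p.1 z i) (p.2 z i)

omit [MeasurableSpace Ω] in
lemma arrows_apply (f : (Dir d → ℝ) → I → Dir d) (ω : Ω → Env d) (p : Ω × Unif d) (z : Site d)
    (i : ℕ) : arrows f ω p z i = f (ω p.1 z i) (p.2 z i) := rfl

lemma measurable_arrows {f : (Dir d → ℝ) → I → Dir d} (hf : Measurable (Function.uncurry f))
    (hω : Measurable ω) : Measurable (arrows f ω) := by
  refine measurable_pi_lambda _ fun z => measurable_pi_lambda _ fun i => ?_
  have h : Measurable (fun p : Ω × Unif d => (ω p.1 z i, p.2 z i)) := by fun_prop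
  exact hf.comp h

theorem measure_follow (hX : IsERW P ω X) {f : (Dir d → ℝ) → I → Dir d}
    (hf : Measurable (Function.uncurry f))
    (hfp : ∀ p : Dir d → ℝ, (∀ s, 0 ≤ p s) → ∑ s, p s = 1 →
        ∀ s, volume {u : I | f p u = s} = ENNReal.ofReal (p s)) (s : ℕ → Dir d) (n : ℕ) :
    (P.prod (muU d)) {p | ∀ k ≤ n, pos unit k (arrows f ω p) = yy s k}
      = ∫⁻ a, wt s n (ω a) ∂P := by
  have hprob := hX.prob
  have h1 : {p : Ω × Unif d | ∀ k ≤ n, pos unit k (arrows f ω p) = yy s k}
      = {p : Ω × Unif d | ∀ k < n, arrows f ω p (yy s k) (visits (yy s) k) = s k} := by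
    ext p
    exact follow_iff s n (arrows f ω p)
  have hm : MeasurableSet
      {p : Ω × Unif d | ∀ k < n, arrows f ω p (yy s k) (visits (yy s) k) = s k} := by
    have h2 : {p : Ω × Unif d | ∀ k < n, arrows f ω p (yy s k) (visits (yy s) k) = s k}
        = ⋂ k : ℕ, ⋂ _ : k < n,
          (fun p : Ω × Unif d => arrows f ω p (yy s k) (visits (yy s) k)) ⁻¹' {s k} := by
      ext p; simp
    rw [h2]
    refine MeasurableSet.iInter fun k => MeasurableSet.iInter fun _ => ?_
    have h3 : Measurable (fun p : Ω × Unif d => arrows f ω p (yy s k) (visits (yy s) k)) := by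
      have := measurable_arrows hf hX.measurable_env
      fun_prop
    exact h3 (measurableSet_singleton _)
  rw [h1, Measure.prod_apply hm]
  refine lintegral_congr_ae ?_
  filter_upwards [hX.cookie_nonneg, hX.cookie_sum] with a h0 hs
  have h4 : (Prod.mk a ⁻¹' {p : Ω × Unif d | ∀ k < n,
      arrows f ω p (yy s k) (visits (yy s) k) = s k} : Set (Unif d))
      = {U : Unif d | ∀ k < n, U (yy s k, visits (yy s) k).1 (yy s k, visits (yy s) k).2 ∈
          {u : I | f (ω a (yy s k) (visits (yy s) k)) u = s k}} := rfl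
  rw [h4]
  unfold muU
  rw [infinitePi_cylinder_pairs (volume : Measure I) n
    (fun k => (yy s k, visits (yy s) k))
    (fun k => {u : I | f (ω a (yy s k) (visits (yy s) k)) u = s k})]
  · unfold wt
    refine Finset.prod_congr rfl fun k _ => ?_
    exact hfp _ (h0 _ _) (hs _ _) _
  · intro j _ k _ h
    have h5 := congrArg Prod.fst h
    have h6 := congrArg Prod.snd h
    exact pair_inj h5 h6
  · intro k
    have h5 : Measurable (f (ω a (yy s k) (visits (yy s) k))) := by fun_prop
    exact h5 (measurableSet_singleton _)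

/-- The law of the walk is the law of the walk driven by the arrows. -/
theorem law_walk (hX : IsERW P ω X) {f : (Dir d → ℝ) → I → Dir d}
    (hf : Measurable (Function.uncurry f))
    (hfp : ∀ p : Dir d → ℝ, (∀ s, 0 ≤ p s) → ∑ s, p s = 1 →
        ∀ s, volume {u : I | f p u = s} = ENNReal.ofReal (p s)) :
    P.map (fun a k => X k a)
      = (P.prod (muU d)).map (fun p k => pos unit k (arrows f ω p)) := by
  have hprob := hX.prob
  have m1 : Measurable (fun (a : Ω) (k : ℕ) => X k a) := by
    have := hX.measurable_walk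
    exact measurable_pi_lambda _ this
  have m2 : Measurable (fun (p : Ω × Unif d) (k : ℕ) => pos unit k (arrows f ω p)) := by
    refine measurable_pi_lambda _ fun k => ?_
    exact (continuous_pos unit k).measurable.comp (measurable_arrows hf hX.measurable_env)
  have i1 : IsProbabilityMeasure (P.map (fun a k => X k a)) :=
    Measure.isProbabilityMeasure_map m1.aemeasurable
  have i2 : IsProbabilityMeasure
      ((P.prod (muU d)).map (fun p k => pos unit k (arrows f ω p))) :=
    Measure.isProbabilityMeasure_map m2.aemeasurable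
  refine law_ext _ _ fun n y => ?_
  have hm : MeasurableSet {x : ℕ → Site d | ∀ k ≤ n, x k = y k} := by
    have h2 : {x : ℕ → Site d | ∀ k ≤ n, x k = y k} =
        ⋂ k : ℕ, ⋂ _ : k ≤ n, (fun x : ℕ → Site d => x k) ⁻¹' {y k} := by
      ext x; simp
    rw [h2]
    exact MeasurableSet.iInter fun k => MeasurableSet.iInter fun _ =>
      (measurable_pi_apply k) (measurableSet_singleton _)
  rw [Measure.map_apply m1 hm, Measure.map_apply m2 hm]
  by_cases hs : ∃ s : ℕ → Dir d, ∀ k ≤ n, yy s k = y k
  · obtain ⟨s, hs⟩ := hs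
    have h1 : (fun (a : Ω) (k : ℕ) => X k a) ⁻¹' {x : ℕ → Site d | ∀ k ≤ n, x k = y k}
        = EE X s n := by
      ext a
      simp only [Set.mem_preimage, Set.mem_ofPred_eq, EE]
      exact ⟨fun h k hk => (h k hk).trans (hs k hk).symm, fun h k hk => (h k hk).trans (hs k hk)⟩
    have h2 : (fun (p : Ω × Unif d) (k : ℕ) => pos unit k (arrows f ω p)) ⁻¹'
        {x : ℕ → Site d | ∀ k ≤ n, x k = y k}
        = {p | ∀ k ≤ n, pos unit k (arrows f ω p) = yy s k} := by
      ext a
      simp only [Set.mem_preimage, Set.mem_ofPred_eq]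
      exact ⟨fun h k hk => (h k hk).trans (hs k hk).symm, fun h k hk => (h k hk).trans (hs k hk)⟩
    rw [h1, h2, measure_EE hX s n, measure_follow hX hf hfp s n]
  · have h1 : P ((fun (a : Ω) (k : ℕ) => X k a) ⁻¹' {x : ℕ → Site d | ∀ k ≤ n, x k = y k}) = 0 := by
      have h3 : ∀ᵐ a ∂P, a ∉ ((fun (a : Ω) (k : ℕ) => X k a) ⁻¹'
          {x : ℕ → Site d | ∀ k ≤ n, x k = y k}) := by
        filter_upwards [ae_step hX, hX.start] with a h4 h5 h6
        apply hs
        choose s hs' using h4
        refine ⟨s, fun k hk => ?_⟩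
        have h7 : ∀ k, yy s k = X k a := by
          intro k
          induction k with
          | zero => simp [yy, h5]
          | succ k ih => rw [yy_succ, ih, hs']
        rw [h7]
        exact h6 k hk
      exact measure_eq_zero_iff_ae_notMem.2 h3
    have h2 : (fun (p : Ω × Unif d) (k : ℕ) => pos unit k (arrows f ω p)) ⁻¹'
        {x : ℕ → Site d | ∀ k ≤ n, x k = y k} = ∅ := by
      rw [Set.eq_empty_iff_forall_notMem]
      intro p hp
      apply hs
      refine ⟨fun k => (G unit)^[k] (arrows f ω p) 0 0, fun k hk => ?_⟩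
      rw [← hp k hk]
      rfl
    rw [h1, h2, measure_empty]

/-- The arrows are independent and identically distributed stacks. -/
theorem law_arrows (hX : IsERW P ω X) (hiid : IIDStacks P ω) {f : (Dir d → ℝ) → I → Dir d}
    (hf : Measurable (Function.uncurry f)) :
    ∃ Q : Measure (ℕ → Dir d), IsProbabilityMeasure Q ∧
      (P.prod (muU d)).map (arrows f ω) = mu (Site d) Q := by
  classical
  have hprob := hX.prob
  set Q : Measure (ℕ → Dir d) :=
    (P.prod (Measure.infinitePi (fun _ : ℕ => (volume : Measure I)))).map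
      (fun p i => f (ω p.1 0 i) (p.2 i)) with hQ
  have mQ : ∀ z : Site d, Measurable (fun (p : Ω × (ℕ → I)) (i : ℕ) => f (ω p.1 z i) (p.2 i)) := by
    intro z
    refine measurable_pi_lambda _ fun i => ?_
    have hω := hX.measurable_env
    have h : Measurable (fun p : Ω × (ℕ → I) => (ω p.1 z i, p.2 i)) := by fun_prop
    exact hf.comp h
  have hQp : IsProbabilityMeasure Q := Measure.isProbabilityMeasure_map (mQ 0).aemeasurable
  refine ⟨Q, hQp, ?_⟩
  unfold mu
  refine Measure.eq_infinitePi _ fun S t ht => ?_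
  have hmeas : MeasurableSet (Set.pi (S : Set (Site d)) t) :=
    MeasurableSet.pi S.countable_toSet fun z _ => ht z
  rw [Measure.map_apply (measurable_arrows hf hX.measurable_env) hmeas,
    Measure.prod_apply ((measurable_arrows hf hX.measurable_env) hmeas)]
  -- the conditional probabilities
  set m : (ℕ → Dir d → ℝ) → (ℕ → I) → (ℕ → Dir d) := fun c u i => f (c i) (u i) with hm
  have mm : Measurable (fun p : (ℕ → Dir d → ℝ) × (ℕ → I) => m p.1 p.2) := by
    refine measurable_pi_lambda _ fun i => ?_
    have h : Measurable (fun p : (ℕ → Dir d → ℝ) × (ℕ → I) => (p.1 i, p.2 i)) := by fun_prop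
    exact hf.comp h
  set g : Site d → (ℕ → Dir d → ℝ) → ENNReal := fun z c =>
    (Measure.infinitePi (fun _ : ℕ => (volume : Measure I))) {u | m c u ∈ t z} with hg
  have gm : ∀ z, Measurable (g z) := by
    intro z
    exact measurable_measure_prodMk_left (mm (ht z))
  have h1 : ∀ a, (muU d) (Prod.mk a ⁻¹' (arrows f ω ⁻¹' (Set.pi (S : Set (Site d)) t)))
      = ∏ z ∈ S, g z (ω a z) := by
    intro a
    have h2 : (Prod.mk a ⁻¹' (arrows f ω ⁻¹' (Set.pi (S : Set (Site d)) t)) : Set (Unif d))
        = Set.pi (S : Set (Site d)) (fun z => {u : ℕ → I | m (ω a z) u ∈ t z}) := rfl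
    rw [h2]
    unfold muU
    rw [Measure.infinitePi_pi]
    intro z _
    have h3 : Measurable (fun u : ℕ → I => m (ω a z) u) := mm.comp measurable_prodMk_left
    exact h3 (ht z)
  simp_rw [h1]
  have hind : iIndepFun (fun (z : Site d) (a : Ω) => g z (ω a z)) P :=
    hiid.1.comp (fun z => g z) (fun z => gm z)
  rw [lintegral_prod_eq_prod_lintegral_of_indepFun S (fun z a => g z (ω a z)) hind]
  · refine Finset.prod_congr rfl fun z _ => ?_
    have h4 := (hiid.2 z).comp (gm z)
    have h5 : ∫⁻ a, g z (ω a z) ∂P = ∫⁻ a, g z (ω a 0) ∂P := h4.lintegral_eq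
    rw [h5, hQ, Measure.map_apply (mQ 0) (ht z), Measure.prod_apply ((mQ 0) (ht z))]
    rfl
  · intro z
    have hω := hX.measurable_env
    have h6 : Measurable (fun a => ω a z) := by fun_prop
    exact (gm z).comp h6

end Couple

end Pool.Agent.H97.ERW
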