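import Mathlib

set_option autoImplicit false

/-! Excited random walks in cookie environments on the lattice of dimension `d`. -/

open Filter Topology MeasureTheory ProbabilityTheory

namespace Pool.Agent.H97.ERW

/-- The sites of the lattice of dimension `d`. -/
abbrev Site (d : ℕ) := Fin d → ℤ

/-- The `2d` directions: `(j, true)` stands for `e_j` and `(j, false)` for `-e_j`. -/
abbrev Dir (d : ℕ) := Fin d × Bool

/-- The unit vector of a direction. -/
def unit {d : ℕ} (s : Dir d) : Site d := Pi.single s.1 (if s.2 then 1 else -1)

/-- Cookie environments: `w z i s` is the probability that the cookie number `i` at the site `z`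
gives to the step `unit s`. The cookies at a site are numbered `0, 1, 2, ...`; cookie number `i`
is the one used at the visit number `i + 1` to the site. -/
abbrev Env (d : ℕ) := Site d → ℕ → Dir d → ℝ

/-- The number of times `i < n` with `x i = x n`. -/
def visits {d : ℕ} (x : ℕ → Site d) (n : ℕ) : ℕ :=
  ((Finset.range n).filter (fun i => x i = x n)).card

/-- The sigma-algebra generated by the environment and the walk up to time `n`. -/
@[reducible] def history {Ω : Type*} {d : ℕ} (ω : Ω → Env d) (X : ℕ → Ω → Site d) (n : ℕ) :
    MeasurableSpace Ω :=
  MeasurableSpace.comap (fun a => (ω a, fun k : Fin (n + 1) => X k a)) inferInstance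

/-- `X` is an excited random walk started at `0` in the random cookie environment `ω`, on the
probability space `(Ω, P)`. -/
structure IsERW {Ω : Type*} [MeasurableSpace Ω] {d : ℕ} (P : Measure Ω) (ω : Ω → Env d)
    (X : ℕ → Ω → Site d) : Prop where
  /-- `P` is a probability measure -/
  prob : IsProbabilityMeasure P
  measurable_env : Measurable ω
  measurable_walk : ∀ n, Measurable (X n)
  /-- the cookies are probability vectors -/
  cookie_nonneg : ∀ᵐ a ∂P, ∀ z i s, 0 ≤ ω a z i s
  cookie_sum : ∀ᵐ a ∂P, ∀ z i, ∑ s, ω a z i s = 1
  /-- the walk starts at the origin -/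
  start : ∀ᵐ a ∂P, X 0 a = 0
  /-- given the environment and the past, the walk steps according to the cookie of the current
  visit to its position -/
  step : ∀ (n : ℕ) (s : Dir d),
    P[({a | X (n + 1) a = X n a + unit s}).indicator (fun _ => (1 : ℝ)) | history ω X n]
      =ᵐ[P] fun a => ω a (X n a) (visits (fun k => X k a) n) s

/-- The stacks of cookies at the different sites are independent and identically distributed. -/
def IIDStacks {Ω : Type*} [MeasurableSpace Ω] {d : ℕ} (P : Measure Ω) (ω : Ω → Env d) : Prop :=
  iIndepFun (fun (z : Site d) (a : Ω) => ω a z) P ∧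
    ∀ z : Site d, IdentDistrib (fun a => ω a z) (fun a => ω a 0) P P

/-- The Euclidean norm of a site. -/
noncomputable def eucl {d : ℕ} (x : Site d) : ℝ := Real.sqrt (∑ j, (x j : ℝ) ^ 2)

end Pool.Agent.H97.ERW
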