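import Pool.Agent.H97.ERW.Topo

set_option autoImplicit false

/-! Independent stacks: the law of a join and of a shift, and the inequality at a level. -/

open Filter Topology MeasureTheory

namespace Pool.Agent.H97.ERW

section Meas

variable {V A : Type*} [AddCommGroup V] [DecidableEq V] (vec : A → V) (lev : V →+ ℤ)
variable [MeasurableSpace A]

lemma measurable_join (m : ℤ) :
    Measurable (fun p : Stacks V A × Stacks V A => join lev m p.1 p.2) := by
  refine measurable_pi_lambda _ fun z => ?_
  unfold join
  split_ifs <;> fun_prop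

lemma measurable_join_right (m : ℤ) (l : Stacks V A) :
    Measurable (fun r : Stacks V A => join lev m l r) :=
  (measurable_join lev m).comp measurable_prodMk_left

lemma measurable_shiftBy (x : V) : Measurable (shiftBy x : Stacks V A → Stacks V A) := by
  refine measurable_pi_lambda _ fun z => ?_
  unfold shiftBy
  fun_prop

variable (Q : Measure (ℕ → A)) [IsProbabilityMeasure Q]

/-- Independent stacks with law `Q`. -/
noncomputable def mu (V : Type*) {A : Type*} [MeasurableSpace A] (Q : Measure (ℕ → A)) :
    Measure (Stacks V A) := Measure.infinitePi (fun _ : V => Q)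

instance : IsProbabilityMeasure (mu V Q) := by unfold mu; infer_instance

lemma map_join (m : ℤ) :
    ((mu V Q).prod (mu V Q)).map (fun p => join lev m p.1 p.2) = mu V Q := by
  classical
  refine Measure.eq_infinitePi (fun _ : V => Q) fun s t ht => ?_
  have hmeas : MeasurableSet (Set.pi (s : Set V) t) :=
    MeasurableSet.pi s.countable_toSet fun z _ => ht z
  rw [Measure.map_apply (measurable_join lev m) hmeas]
  have h1 : (fun p : Stacks V A × Stacks V A => join lev m p.1 p.2) ⁻¹' (Set.pi (s : Set V) t)
      = (Set.pi ((s.filter (fun z => lev z < m) : Finset V) : Set V) t) ×ˢ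
        (Set.pi ((s.filter (fun z => ¬ lev z < m) : Finset V) : Set V) t) := by
    ext ⟨l, r⟩
    simp only [Set.mem_preimage, Set.mem_pi, Finset.mem_coe, Set.mem_prod, Finset.mem_filter]
    constructor
    · intro h
      refine ⟨fun z hz => ?_, fun z hz => ?_⟩
      · have := h z hz.1
        rwa [join_of_lt lev hz.2] at this
      · have := h z hz.1
        rwa [join_of_le lev (not_lt.1 hz.2)] at this
    · intro h z hz
      by_cases hlt : lev z < m
      · rw [join_of_lt lev hlt]
        exact h.1 z ⟨hz, hlt⟩
      · rw [join_of_le lev (not_lt.1 hlt)]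
        exact h.2 z ⟨hz, hlt⟩
  rw [h1, Measure.prod_prod]
  unfold mu
  rw [Measure.infinitePi_pi _ (fun z _ => ht z), Measure.infinitePi_pi _ (fun z _ => ht z)]
  exact Finset.prod_filter_mul_prod_filter_not s (fun z => lev z < m) _

lemma lintegral_join (m : ℤ) {f : Stacks V A → ENNReal} (hf : Measurable f) :
    ∫⁻ ξ, f ξ ∂(mu V Q) = ∫⁻ l, ∫⁻ r, f (join lev m l r) ∂(mu V Q) ∂(mu V Q) := by
  conv_lhs => rw [← map_join lev Q m]
  rw [lintegral_map hf (measurable_join lev m), lintegral_prod]
  exact (hf.comp (measurable_join lev m)).aemeasurable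

lemma map_shiftBy (x : V) : (mu V Q).map (shiftBy x) = mu V Q := by
  classical
  refine Measure.eq_infinitePi (fun _ : V => Q) fun s t ht => ?_
  have hmeas : MeasurableSet (Set.pi (s : Set V) t) :=
    MeasurableSet.pi s.countable_toSet fun z _ => ht z
  rw [Measure.map_apply (measurable_shiftBy x) hmeas]
  have h1 : (shiftBy x : Stacks V A → Stacks V A) ⁻¹' (Set.pi (s : Set V) t)
      = Set.pi ((s.map (addRightEmbedding x) : Finset V) : Set V) (fun z => t (z - x)) := by
    ext ξ
    simp only [Set.mem_preimage, Set.mem_pi, Finset.mem_coe, Finset.mem_map,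
      addRightEmbedding_apply, forall_exists_index, and_imp]
    constructor
    · intro h y z hz hzy
      have := h z hz
      subst hzy
      simpa [shiftBy] using this
    · intro h z hz
      have := h (z + x) z hz rfl
      simpa [shiftBy] using this
  rw [h1]
  unfold mu
  rw [Measure.infinitePi_pi _ (fun z _ => ht _), Finset.prod_map]
  simp

lemma measure_shiftBy (x : V) {S : Set (Stacks V A)} (hS : MeasurableSet S) :
    (mu V Q) {r | shiftBy x r ∈ S} = (mu V Q) S := by
  conv_rhs => rw [← map_shiftBy Q x]
  rw [Measure.map_apply (measurable_shiftBy x) hS]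
  rfl

end Meas

section Level

variable {V A : Type*} [AddCommGroup V] [DecidableEq V] [Countable V] (vec : A → V)
  (lev : V →+ ℤ)
variable [Finite A] [TopologicalSpace A] [DiscreteTopology A] [MeasurableSpace A]
  [DiscreteMeasurableSpace A]
variable (Q : Measure (ℕ → A)) [IsProbabilityMeasure Q]

lemma measurableSet_Oset {a : ℕ → ℕ} (ha : Monotone a) (K L : ℕ) :
    MeasurableSet (Oset (A := A) vec lev a K L) :=
  (isClopen_Oset vec lev ha K L).isClosed.measurableSet

lemma measurableSet_Oinf {a : ℕ → ℕ} (ha : Monotone a) (K : ℕ) :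
    MeasurableSet (Oinf (A := A) vec lev a K) :=
  MeasurableSet.iInter fun L => measurableSet_Oset vec lev ha K L

lemma measurable_lp (n : ℕ) : Measurable (fun ξ : Stacks V A => lp vec lev ξ n) :=
  (continuous_lp vec lev n).measurable

lemma measurableSet_Bset (k : ℤ) : MeasurableSet (Bset (A := A) vec lev k) := by
  have : Bset (A := A) vec lev k = ⋃ n0 : ℕ, ⋂ n : ℕ, ⋂ _ : n0 ≤ n,
      (fun ξ : Stacks V A => lp vec lev ξ n) ⁻¹' (Set.Ici k) := by
    ext ξ; simp [Bset]
  rw [this]
  refine MeasurableSet.iUnion fun n0 => MeasurableSet.iInter fun n => MeasurableSet.iInter fun _ =>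
    measurable_lp vec lev n measurableSet_Ici

lemma measurableSet_IsHit (m : ℤ) (n : ℕ) :
    MeasurableSet {ξ : Stacks V A | IsHit vec lev m n ξ} := by
  have : {ξ : Stacks V A | IsHit vec lev m n ξ} =
      ((fun ξ : Stacks V A => lp vec lev ξ n) ⁻¹' (Set.Ici m)) ∩
      ⋂ k : ℕ, ⋂ _ : k < n, (fun ξ : Stacks V A => lp vec lev ξ k) ⁻¹' (Set.Iio m) := by
    ext ξ; simp [IsHit]
  rw [this]
  exact (measurable_lp vec lev n measurableSet_Ici).inter
    (MeasurableSet.iInter fun k => MeasurableSet.iInter fun _ =>
      measurable_lp vec lev k measurableSet_Iio)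

lemma measurableSet_Om {a : ℕ → ℕ} (ha : Monotone a) (K L : ℕ) (m : ℤ) :
    MeasurableSet (Om (A := A) vec lev a K L m) := by
  have : Om (A := A) vec lev a K L m = ⋃ n : ℕ, {ξ : Stacks V A | IsHit vec lev m n ξ} ∩
      ((G vec)^[n] ⁻¹' (Oset vec lev a K L)) := by
    ext ξ; simp [Om]
  rw [this]
  exact MeasurableSet.iUnion fun n => (measurableSet_IsHit vec lev m n).inter
    ((continuous_iterate_G vec n).measurable (measurableSet_Oset vec lev ha K L))

/-- Conditional probability, given the left stacks, of being eventually at level at least `k`. -/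
noncomputable def hh (m k : ℤ) (l : Stacks V A) : ENNReal :=
  (mu V Q) {r | join lev m l r ∈ Bset vec lev k}

theorem level_ineq {a : ℕ → ℕ} (ha : Monotone a) (ha' : ∀ L, L ≤ a L)
    (hlev : ∀ s, lev (vec s) ≤ 1) {K L : ℕ} {ε : ENNReal}
    (hu : ∀ l, Psi lev (mu V Q) (Oset vec lev a K L) l
      ≤ Psi lev (mu V Q) (Oinf vec lev a K) l + ε)
    {m : ℤ} (hm : 0 ≤ m) (l : Stacks V A) :
    (mu V Q) {r | join lev m l r ∈ Om vec lev a K L m} ≤ hh vec lev Q m m l + ε := by
  by_cases hex : ∃ n, IsHit vec lev m n l
  · obtain ⟨n, hn⟩ := hex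
    set l' := (G vec)^[n] l with hl'
    set x := pos vec n l with hx
    have h1 : {r | join lev m l r ∈ Om vec lev a K L m} ⊆
        {r | shiftBy x r ∈ {r | join lev 0 l' r ∈ Oset vec lev a K L}} := by
      rintro r ⟨n', h2, h3⟩
      have h4 : IsHit vec lev m n (join lev m l r) :=
        hn.of_agree vec lev (fun y hy => (join_of_lt lev hy).symm)
      have h5 := h2.unique vec lev h4
      subst h5
      rw [G_join vec lev hlev hm hn] at h3
      exact h3
    have h6 : {r | shiftBy x r ∈ {r | join lev 0 l' r ∈ Oinf vec lev a K}} ⊆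
        {r | join lev m l r ∈ Bset vec lev m} := by
      intro r hr
      have h4 : IsHit vec lev m n (join lev m l r) :=
        hn.of_agree vec lev (fun y hy => (join_of_lt lev hy).symm)
      refine mem_Bset_of_G vec lev hlev hm h4 ?_
      rw [G_join vec lev hlev hm hn]
      exact Oinf_sub vec lev hlev ha' hr
    calc (mu V Q) {r | join lev m l r ∈ Om vec lev a K L m}
        ≤ (mu V Q) {r | shiftBy x r ∈ {r | join lev 0 l' r ∈ Oset vec lev a K L}} :=
          measure_mono h1
      _ = Psi lev (mu V Q) (Oset vec lev a K L) l' := by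
          rw [measure_shiftBy Q x]
          · rfl
          · exact (measurable_join_right lev 0 l') (measurableSet_Oset vec lev ha K L)
      _ ≤ Psi lev (mu V Q) (Oinf vec lev a K) l' + ε := hu l'
      _ = (mu V Q) {r | shiftBy x r ∈ {r | join lev 0 l' r ∈ Oinf vec lev a K}} + ε := by
          rw [measure_shiftBy Q x]
          · rfl
          · exact (measurable_join_right lev 0 l') (measurableSet_Oinf vec lev ha K)
      _ ≤ hh vec lev Q m m l + ε := by
          gcongr
          exact measure_mono h6
  · have : {r | join lev m l r ∈ Om vec lev a K L m} = ∅ := by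
      rw [Set.eq_empty_iff_forall_notMem]
      rintro r ⟨n, h2, _⟩
      exact hex ⟨n, h2.of_agree vec lev (fun y hy => join_of_lt lev hy)⟩
    rw [this]
    simp

end Level

end Pool.Agent.H97.ERW
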