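import Pool.Agent.H97.ERW.Walk
import Pool.Agent.H97.ERW.Count

set_option autoImplicit false

/-! Half-spaces, joins of stacks, and the events attached to a level. -/

open Filter Topology MeasureTheory

namespace Pool.Agent.H97.ERW

section Det

variable {V A : Type*} [AddCommGroup V] [DecidableEq V] (vec : A → V) (lev : V →+ ℤ)

/-- Use the stacks `l` at sites of level below `m` and the stacks `r` at the other sites. -/
def join (m : ℤ) (l r : Stacks V A) : Stacks V A := fun z => if lev z < m then l z else r z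

lemma join_of_lt {m : ℤ} {l r : Stacks V A} {z : V} (h : lev z < m) : join lev m l r z = l z :=
  if_pos h

lemma join_of_le {m : ℤ} {l r : Stacks V A} {z : V} (h : m ≤ lev z) : join lev m l r z = r z :=
  if_neg (not_lt.2 h)

lemma join_join {m m' : ℤ} (h : m' ≤ m) (l r r' : Stacks V A) :
    join lev m' (join lev m l r) r' = join lev m' l r' := by
  funext z
  unfold join
  split_ifs with h1 h2
  · rfl
  · exact absurd (h1.trans_le h) h2
  · rfl

/-- The level of the walk. -/
def lp (ξ : Stacks V A) (n : ℕ) : ℤ := lev (pos vec n ξ)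

@[simp] lemma lp_zero (ξ : Stacks V A) : lp vec lev ξ 0 = 0 := by simp [lp]

lemma lp_add (ξ : Stacks V A) (n k : ℕ) :
    lp vec lev ξ (n + k) = lp vec lev ξ n + lp vec lev ((G vec)^[n] ξ) k := by
  simp [lp, pos_add]

variable (hlev : ∀ s, lev (vec s) ≤ 1)
include hlev in
lemma lp_succ_le (ξ : Stacks V A) (n : ℕ) : lp vec lev ξ (n + 1) ≤ lp vec lev ξ n + 1 := by
  unfold lp
  rw [pos_succ, map_add]
  linarith [hlev ((G vec)^[n] ξ 0 0)]

/-- `n` is the first time at which the walk is at level at least `m`. -/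
def IsHit (m : ℤ) (n : ℕ) (ξ : Stacks V A) : Prop :=
  m ≤ lp vec lev ξ n ∧ ∀ k < n, lp vec lev ξ k < m

include hlev in
lemma IsHit.eq {m : ℤ} (hm : 0 ≤ m) {n : ℕ} {ξ : Stacks V A} (h : IsHit vec lev m n ξ) :
    lp vec lev ξ n = m := by
  rcases Nat.eq_zero_or_pos n with h0 | h0
  · subst h0
    have := h.1
    simp only [lp_zero] at this ⊢
    omega
  · obtain ⟨k, rfl⟩ : ∃ k, n = k + 1 := ⟨n - 1, by omega⟩
    have h1 := h.2 k (by omega)
    have h2 := lp_succ_le vec lev hlev ξ k
    have h3 := h.1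
    omega

lemma IsHit.unique {m : ℤ} {n n' : ℕ} {ξ : Stacks V A} (h : IsHit vec lev m n ξ)
    (h' : IsHit vec lev m n' ξ) : n = n' := by
  rcases lt_trichotomy n n' with h1 | h1 | h1
  · have := h'.2 n h1
    have := h.1
    omega
  · exact h1
  · have := h.2 n' h1
    have := h'.1
    omega

/-- Walks driven by stacks that agree below level `m` coincide until level `m` is reached. -/
lemma coincide_left {m : ℤ} {ξ ξ' : Stacks V A} (hS : ∀ y, lev y < m → ξ y = ξ' y) (n : ℕ)
    (h : ∀ k < n, lp vec lev ξ k < m) :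
    pos vec n ξ = pos vec n ξ' ∧
      ∀ z, lev (z + pos vec n ξ) < m → (G vec)^[n] ξ z = (G vec)^[n] ξ' z :=
  coincide vec {y | lev y < m} hS n (fun k hk => Or.inl (h k hk))

lemma IsHit.of_agree {m : ℤ} {ξ ξ' : Stacks V A} (hS : ∀ y, lev y < m → ξ y = ξ' y) {n : ℕ}
    (h : IsHit vec lev m n ξ) : IsHit vec lev m n ξ' := by
  refine ⟨?_, fun k hk => ?_⟩
  · have := (coincide_left vec lev hS n h.2).1
    unfold lp
    rw [← this]
    exact h.1
  · have := (coincide_left vec lev hS k (fun i hi => h.2 i (hi.trans hk))).1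
    unfold lp
    rw [← this]
    exact h.2 k hk

/-- The event seen from the walker. -/
def Oset (a : ℕ → ℕ) (K L : ℕ) : Set (Stacks V A) := {ξ | OP a K L (lp vec lev ξ)}

lemma Oset.of_agree {a : ℕ → ℕ} {K L : ℕ} {ξ ξ' : Stacks V A}
    (hS : ∀ y, lev y < (L : ℤ) → ξ y = ξ' y) (h : ξ ∈ Oset vec lev a K L) :
    ξ' ∈ Oset vec lev a K L := by
  refine OP.local (fun n hn => ?_) h
  have := (coincide_left vec lev hS n hn).1
  unfold lp
  rw [this]

/-- The event at level `m`. -/
def Om (a : ℕ → ℕ) (K L : ℕ) (m : ℤ) : Set (Stacks V A) :=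
  {ξ | ∃ n, IsHit vec lev m n ξ ∧ (G vec)^[n] ξ ∈ Oset vec lev a K L}

include hlev in
lemma Om.of_agree {a : ℕ → ℕ} {K L : ℕ} {m : ℤ} (hm : 0 ≤ m) {ξ ξ' : Stacks V A}
    (hS : ∀ y, lev y < m + L → ξ y = ξ' y) (h : ξ ∈ Om vec lev a K L m) :
    ξ' ∈ Om vec lev a K L m := by
  obtain ⟨n, h1, h2⟩ := h
  have hS' : ∀ y, lev y < m → ξ y = ξ' y := fun y hy => hS y (by omega)
  refine ⟨n, h1.of_agree vec lev hS', ?_⟩
  refine Oset.of_agree vec lev ?_ h2
  intro y hy
  have h3 := h1.eq vec lev hlev hm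
  refine (coincide_left vec lev hS n (fun k hk => (h1.2 k hk).trans_le (by omega))).2 y ?_
  rw [map_add]
  unfold lp at h3
  omega

/-- The walk is eventually at level at least `k`. -/
def Bset (k : ℤ) : Set (Stacks V A) := {ξ | ∃ n0, ∀ n ≥ n0, k ≤ lp vec lev ξ n}

lemma Bset.anti {k k' : ℤ} (h : k ≤ k') : Bset (A := A) vec lev k' ⊆ Bset vec lev k := by
  rintro ξ ⟨n0, hn0⟩
  exact ⟨n0, fun n hn => h.trans (hn0 n hn)⟩

/-- The limiting event seen from the walker. -/
def Oinf (a : ℕ → ℕ) (K : ℕ) : Set (Stacks V A) := ⋂ L, Oset vec lev a K L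

include hlev in
lemma Oinf_sub {a : ℕ → ℕ} (ha : ∀ L, L ≤ a L) {K : ℕ} :
    Oinf (A := A) vec lev a K ⊆ Bset vec lev 0 := by
  intro ξ h
  exact OP.eventually ha (lp_succ_le vec lev hlev ξ) (fun L => Set.mem_iInter.1 h L)

include hlev in
/-- After hitting level `m` at time `n` the stacks seen from the walker are the join of the left
stacks seen by the walk driven by `l` and of the shifted fresh stacks. -/
lemma G_join {m : ℤ} (hm : 0 ≤ m) {n : ℕ} {l : Stacks V A} (h : IsHit vec lev m n l)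
    (r : Stacks V A) :
    (G vec)^[n] (join lev m l r) =
      join lev 0 ((G vec)^[n] l) (shiftBy (pos vec n l) r) := by
  have hS : ∀ y, lev y < m → l y = join lev m l r y := fun y hy => (join_of_lt lev hy).symm
  have h1 := coincide_left vec lev hS n h.2
  have h2 : lev (pos vec n l) = m := h.eq vec lev hlev hm
  funext z
  by_cases hz : lev z < 0
  · rw [join_of_lt lev hz, h1.2 z (by rw [map_add]; omega)]
  · push Not at hz
    rw [join_of_le lev hz]
    have h3 := unvisited vec {y | m ≤ lev y} (ξ := join lev m l r) n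
      (fun k hk => by
        have h4 := (coincide_left vec lev hS k (fun i hi => h.2 i (hi.trans hk))).1
        rw [← h4]
        simpa [lp] using h.2 k hk) z
      (by rw [← h1.1]; simp only [Set.mem_ofPred_eq, map_add]; omega)
    rw [h3, ← h1.1, join_of_le lev (by rw [map_add]; omega)]
    rfl

include hlev in
lemma mem_Bset_of_G {m : ℤ} (hm : 0 ≤ m) {n : ℕ} {ξ : Stacks V A} (h : IsHit vec lev m n ξ)
    (h2 : (G vec)^[n] ξ ∈ Bset vec lev 0) : ξ ∈ Bset vec lev m := by
  obtain ⟨n0, hn0⟩ := h2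
  refine ⟨n + n0, fun k hk => ?_⟩
  obtain ⟨i, rfl⟩ : ∃ i, k = n + i := ⟨k - n, by omega⟩
  rw [lp_add, h.eq vec lev hlev hm]
  have := hn0 i (by omega)
  omega

lemma OP.congr {a : ℕ → ℕ} (ha : Monotone a) {K L : ℕ} {q q' : ℕ → ℤ}
    (hq : ∀ n ≤ a L, q n = q' n) (h : OP a K L q) : OP a K L q' := by
  classical
  constructor
  · intro j h1 h2
    obtain ⟨n, hn, hj⟩ := h.1 j h1 h2
    exact ⟨n, hn, by rwa [← hq n (hn.trans (ha h2))]⟩
  · intro n hn hk
    have h2 := h.2 n hn (fun k hk' => by rw [hq k (hk'.trans hn)]; exact hk k hk')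
    refine le_trans (le_of_eq ?_) h2
    congr 1
    apply Finset.filter_congr
    intro k hk'
    rw [hq k (by simp only [Finset.mem_range] at hk'; omega)]

end Det

end Pool.Agent.H97.ERW
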