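import Pool.Agent.H97.ERW.Law

set_option autoImplicit false

/-! Levy's upward theorem for the filtration of the left stacks. -/

open Filter Topology MeasureTheory

namespace Pool.Agent.H97.ERW

section Levy

variable {V A : Type*} [AddCommGroup V] [DecidableEq V] (lev : V →+ ℤ)
variable [MeasurableSpace A]

/-- The stacks at sites of level below `m`. -/
def restr (m : ℤ) (ξ : Stacks V A) : {z : V // lev z < m} → ℕ → A := fun z => ξ z

omit [DecidableEq V] in
lemma measurable_restr (m : ℤ) : Measurable (restr (A := A) lev m) := by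
  unfold restr
  fun_prop

omit [DecidableEq V] [MeasurableSpace A] in
lemma restr_join (m : ℤ) (l r : Stacks V A) : restr lev m (join lev m l r) = restr lev m l := by
  funext z
  exact if_pos z.2

/-- The filtration of the left stacks. -/
def filt : Filtration ℕ (inferInstance : MeasurableSpace (Stacks V A)) where
  seq m := MeasurableSpace.comap (restr lev m) inferInstance
  mono' := by
    intro m m' h
    have h1 : (restr (A := A) lev m) =
        (fun (y : {z : V // lev z < (m' : ℤ)} → ℕ → A) (z : {z : V // lev z < (m : ℤ)}) =>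
          y ⟨z.1, z.2.trans_le (by exact_mod_cast h)⟩) ∘ (restr lev m') := rfl
    show MeasurableSpace.comap (restr lev (m : ℤ)) _ ≤ MeasurableSpace.comap (restr lev (m' : ℤ)) _
    rw [h1, ← MeasurableSpace.comap_comp]
    apply MeasurableSpace.comap_mono
    apply Measurable.comap_le
    fun_prop
  le' := fun m => (measurable_restr lev m).comap_le

lemma iSup_filt : (⨆ n, (filt (A := A) lev) n) = (inferInstance : MeasurableSpace (Stacks V A)) := by
  apply le_antisymm
  · exact iSup_le fun n => (filt lev).le n
  · show MeasurableSpace.pi ≤ _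
    unfold MeasurableSpace.pi
    refine iSup_le fun z => ?_
    have h1 : lev z < (((lev z).toNat + 1 : ℕ) : ℤ) := by push_cast; omega
    refine le_trans ?_ (le_iSup _ ((lev z).toNat + 1))
    show MeasurableSpace.comap (fun ξ : Stacks V A => ξ z) _ ≤
      MeasurableSpace.comap (restr lev (((lev z).toNat + 1 : ℕ) : ℤ)) _
    apply measurable_iff_comap_le.1
    have h3 : Measurable (fun y : {w : V // lev w < (((lev z).toNat + 1 : ℕ) : ℤ)} → ℕ → A =>
        y ⟨z, h1⟩) := measurable_pi_apply _
    have h4 := h3.comp (comap_measurable (restr (A := A) lev (((lev z).toNat + 1 : ℕ) : ℤ)))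
    exact h4

variable (Q : Measure (ℕ → A)) [IsProbabilityMeasure Q]

/-- Join from the restricted left stacks. -/
def join' (m : ℤ) (p : ({z : V // lev z < m} → ℕ → A) × Stacks V A) : Stacks V A :=
  fun z => if h : lev z < m then p.1 ⟨z, h⟩ else p.2 z

omit [DecidableEq V] in
lemma measurable_join' (m : ℤ) : Measurable (join' (A := A) lev m) := by
  refine measurable_pi_lambda _ fun z => ?_
  unfold join'
  split_ifs <;> fun_prop

omit [DecidableEq V] [MeasurableSpace A] in
lemma join'_restr (m : ℤ) (l r : Stacks V A) : join' lev m (restr lev m l, r) = join lev m l r := by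
  funext z
  unfold join' join restr
  split_ifs <;> rfl

/-- Conditional probability of a set given the left stacks. -/
noncomputable def cp (m : ℤ) (B : Set (Stacks V A)) (l : Stacks V A) : ENNReal :=
  (mu V Q) {r | join lev m l r ∈ B}

omit [DecidableEq V] in
lemma cp_le_one (m : ℤ) (B : Set (Stacks V A)) (l : Stacks V A) : cp lev Q m B l ≤ 1 :=
  prob_le_one

omit [DecidableEq V] [IsProbabilityMeasure Q] in
lemma cp_eq (m : ℤ) (B : Set (Stacks V A)) :
    cp lev Q m B = (fun y => (mu V Q) (Prod.mk y ⁻¹' (join' lev m ⁻¹' B))) ∘ restr lev m := by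
  funext l
  simp only [cp, Function.comp]
  congr 1

omit [DecidableEq V] in
lemma measurable_cp_aux (m : ℤ) {B : Set (Stacks V A)} (hB : MeasurableSet B) :
    Measurable (fun y => (mu V Q) (Prod.mk y ⁻¹' (join' lev m ⁻¹' B))) :=
  measurable_measure_prodMk_left (measurable_join' lev m hB)

lemma measurable_cp (m : ℤ) {B : Set (Stacks V A)} (hB : MeasurableSet B) :
    Measurable (cp lev Q m B) := by
  rw [cp_eq]
  exact (measurable_cp_aux lev Q m hB).comp (measurable_restr lev m)

lemma measurable_cp_filt (m : ℕ) {B : Set (Stacks V A)} (hB : MeasurableSet B) :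
    Measurable[filt lev m] (cp lev Q m B) := by
  rw [cp_eq]
  exact (measurable_cp_aux lev Q m hB).comp (comap_measurable _)

lemma setLIntegral_cp (m : ℕ) {B s : Set (Stacks V A)} (hB : MeasurableSet B)
    (hs : MeasurableSet[filt lev m] s) :
    ∫⁻ l in s, cp lev Q m B l ∂(mu V Q) = (mu V Q) (B ∩ s) := by
  have hs' : MeasurableSet s := (filt lev).le m s hs
  obtain ⟨s', hs1, hs2⟩ := hs
  have hmem : ∀ l r, join lev m l r ∈ s ↔ l ∈ s := by
    intro l r
    rw [← hs2, Set.mem_preimage, Set.mem_preimage, restr_join]
  have hf : Measurable ((B ∩ s).indicator (fun _ => (1 : ENNReal))) :=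
    measurable_const.indicator (hB.inter hs')
  have h1 := lintegral_join lev Q m hf
  rw [lintegral_indicator (hB.inter hs')] at h1
  simp only [lintegral_const, one_mul, MeasurableSet.univ, Measure.restrict_apply,
    Set.univ_inter] at h1
  rw [h1, ← lintegral_indicator hs']
  refine lintegral_congr fun l => ?_
  by_cases hl : l ∈ s
  · rw [Set.indicator_of_mem hl]
    have h2 : (fun r => (B ∩ s).indicator (fun _ => (1 : ENNReal)) (join lev m l r))
        = {r | join lev m l r ∈ B}.indicator (fun _ => (1 : ENNReal)) := by
      funext r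
      by_cases hr : join lev m l r ∈ B
      · rw [Set.indicator_of_mem (show join lev m l r ∈ B ∩ s from ⟨hr, (hmem l r).2 hl⟩),
          Set.indicator_of_mem (show r ∈ {r | join lev m l r ∈ B} from hr)]
      · rw [Set.indicator_of_notMem (fun h => hr h.1),
          Set.indicator_of_notMem (show r ∉ {r | join lev m l r ∈ B} from hr)]
    have h3 : MeasurableSet {r | join lev m l r ∈ B} := measurable_join_right lev m l hB
    rw [h2, lintegral_indicator h3]
    simp [cp]
  · rw [Set.indicator_of_notMem hl]
    have h2 : (fun r => (B ∩ s).indicator (fun _ => (1 : ENNReal)) (join lev m l r))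
        = fun _ => 0 := by
      funext r
      exact Set.indicator_of_notMem (fun h => hl ((hmem l r).1 h.2)) _
    rw [h2]
    simp

theorem levy {B : Set (Stacks V A)} (hB : MeasurableSet B) :
    ∀ᵐ l ∂(mu V Q), l ∉ B → Tendsto (fun m : ℕ => cp lev Q m B l) atTop (𝓝 0) := by
  have h1 := tendsto_ae_condExp (μ := mu V Q) (ℱ := filt (A := A) lev)
    (B.indicator (fun _ => (1 : ℝ)))
  have h2 : (mu V Q)[B.indicator (fun _ => (1 : ℝ)) | ⨆ n, (filt (A := A) lev) n]
      = B.indicator (fun _ => (1 : ℝ)) := by
    apply condExp_of_stronglyMeasurable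
    · exact iSup_le fun n => (filt lev).le n
    · rw [iSup_filt]
      exact stronglyMeasurable_const.indicator hB
    · exact (integrable_const _).indicator hB
  rw [h2] at h1
  have h3 : ∀ m : ℕ, (fun l => (cp lev Q m B l).toReal)
      =ᵐ[mu V Q] (mu V Q)[B.indicator (fun _ => (1 : ℝ)) | (filt (A := A) lev) m] := by
    intro m
    have hmeas : Measurable (cp lev Q m B) := measurable_cp lev Q m hB
    have hint : Integrable (fun l => (cp lev Q m B l).toReal) (mu V Q) := by
      refine Integrable.of_bound (C := 1) hmeas.ennreal_toReal.aestronglyMeasurable ?_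
      refine Eventually.of_forall fun l => ?_
      rw [Real.norm_of_nonneg ENNReal.toReal_nonneg]
      exact ENNReal.toReal_mono ENNReal.one_ne_top (cp_le_one lev Q m B l)
    apply ae_eq_condExp_of_forall_setIntegral_eq ((filt lev).le m)
    · exact (integrable_const _).indicator hB
    · intro s _ _
      exact hint.integrableOn
    · intro s hs _
      have hs' : MeasurableSet s := (filt lev).le m s hs
      rw [integral_toReal hmeas.aemeasurable
        (Eventually.of_forall fun l => (cp_le_one lev Q m B l).trans_lt ENNReal.one_lt_top),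
        setLIntegral_cp lev Q m hB hs, integral_indicator hB]
      simp only [integral_const, smul_eq_mul, mul_one, Measure.real,
        Measure.restrict_apply MeasurableSet.univ, Set.univ_inter, Measure.restrict_apply hB]
    · exact (Measurable.stronglyMeasurable (measurable_cp_filt lev Q m hB).ennreal_toReal).aestronglyMeasurable
  have h4 : ∀ᵐ l ∂(mu V Q), ∀ m : ℕ, (cp lev Q m B l).toReal
      = ((mu V Q)[B.indicator (fun _ => (1 : ℝ)) | (filt (A := A) lev) m]) l := by
    rw [ae_all_iff]
    exact h3
  filter_upwards [h1, h4] with l hl1 hl4 hlB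
  rw [Set.indicator_of_notMem hlB] at hl1
  have h5 : Tendsto (fun m : ℕ => (cp lev Q m B l).toReal) atTop (𝓝 0) := by
    refine hl1.congr fun m => (hl4 m).symm
  rw [← ENNReal.toReal_zero] at h5
  rwa [ENNReal.tendsto_toReal_iff] at h5
  · intro m
    exact ((cp_le_one lev Q m B l).trans_lt ENNReal.one_lt_top).ne
  · exact ENNReal.zero_ne_top

end Levy

end Pool.Agent.H97.ERW
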