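import Mathlib

set_option autoImplicit false

/-! Deterministic facts about integer paths whose upward steps are at most `1`. -/

open Filter Topology

namespace Pool.Agent.H97.ERW

/-- `OP a K L q`: the path `q` reaches each level `j`, `1 ≤ j ≤ L`, by time `a j` and has at most
`K` visits to level `0` before it reaches level `L`. -/
def OP (a : ℕ → ℕ) (K L : ℕ) (q : ℕ → ℤ) : Prop :=
  (∀ j : ℕ, 1 ≤ j → j ≤ L → ∃ n ≤ a j, (j : ℤ) ≤ q n) ∧
    ∀ n ≤ a L, (∀ k ≤ n, q k < (L : ℤ)) →
      ((Finset.range (n + 1)).filter (fun k => q k = 0)).card ≤ K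

lemma OP.anti {a : ℕ → ℕ} (ha : Monotone a) {K L L' : ℕ} (hL : L ≤ L') {q : ℕ → ℤ}
    (h : OP a K L' q) : OP a K L q := by
  refine ⟨fun j h1 h2 => h.1 j h1 (h2.trans hL), fun n hn hk => h.2 n (hn.trans (ha hL)) ?_⟩
  intro k hk'
  exact (hk k hk').trans_le (by exact_mod_cast hL)

lemma OP.local {a : ℕ → ℕ} {K L : ℕ} {q q' : ℕ → ℤ}
    (hq : ∀ n, (∀ k < n, q k < (L : ℤ)) → q n = q' n) (h : OP a K L q) : OP a K L q' := by
  classical
  constructor
  · intro j h1 h2
    obtain ⟨n, hn, hjn⟩ := h.1 j h1 h2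
    have hex : ∃ n, (j : ℤ) ≤ q n := ⟨n, hjn⟩
    refine ⟨Nat.find hex, (Nat.find_min' hex hjn).trans hn, ?_⟩
    rw [← hq]
    · exact Nat.find_spec hex
    · intro k hk
      have := Nat.find_min hex hk
      push Not at this
      exact this.trans_le (by exact_mod_cast h2)
  · intro n hn hk
    have key : ∀ k ≤ n, q k = q' k ∧ q k < (L : ℤ) := by
      intro k
      induction k using Nat.strong_induction_on with
      | _ k ih =>
        intro hkn
        have h1 : q k = q' k := hq k (fun i hi => (ih i hi (hi.le.trans hkn)).2)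
        exact ⟨h1, h1 ▸ hk k hkn⟩
    have h2 := h.2 n hn (fun k hk' => (key k hk').2)
    refine le_trans (le_of_eq ?_) h2
    congr 1
    apply Finset.filter_congr
    intro k hk'
    rw [(key k (by simpa [Nat.lt_succ_iff] using hk')).1]

/-- A path with upward steps at most one passes through `0` on the way up. -/
lemma exists_zero {q : ℕ → ℤ} (hs : ∀ n, q (n + 1) ≤ q n + 1) {n n' : ℕ} (hn : n ≤ n')
    (h1 : q n < 0) (h2 : 0 ≤ q n') : ∃ k, n ≤ k ∧ q k = 0 := by
  by_contra hcon
  push Not at hcon
  have : ∀ i, q (n + i) < 0 := by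
    intro i
    induction i with
    | zero => simpa using h1
    | succ i ih =>
      have h3 := hs (n + i)
      have h4 := hcon (n + (i + 1)) (by omega)
      rw [← Nat.add_assoc] at h4 ⊢
      omega
  have h5 := this (n' - n)
  rw [Nat.add_sub_cancel' hn] at h5
  omega

lemma OP.eventually {a : ℕ → ℕ} (ha' : ∀ L, L ≤ a L) {K : ℕ} {q : ℕ → ℤ}
    (hs : ∀ n, q (n + 1) ≤ q n + 1) (h : ∀ L, OP a K L q) :
    ∃ n0, ∀ n ≥ n0, 0 ≤ q n := by
  classical
  -- an upper bound for the first values
  have hbd : ∀ n, ∃ L : ℕ, n ≤ L ∧ ∀ k ≤ n, q k < (L : ℤ) := by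
    intro n
    induction n with
    | zero => exact ⟨(q 0).toNat + 1, by omega, fun k hk => by
        obtain rfl : k = 0 := by omega
        omega⟩
    | succ n ih =>
      obtain ⟨L, h1, h2⟩ := ih
      refine ⟨L + 1 + (q (n + 1)).toNat, by omega, fun k hk => ?_⟩
      rcases Nat.lt_or_ge k (n + 1) with h3 | h3
      · have := h2 k (by omega)
        push_cast
        omega
      · obtain rfl : k = n + 1 := by omega
        push_cast
        omega
  have hcard : ∀ n, ((Finset.range (n + 1)).filter (fun k => q k = 0)).card ≤ K := by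
    intro n
    obtain ⟨L, h1, h2⟩ := hbd n
    exact (h L).2 n (h1.trans (ha' L)) h2
  have hup : ∀ n, ∃ n', n < n' ∧ 0 < q n' := by
    intro n
    obtain ⟨L, h1, h2⟩ := hbd n
    obtain ⟨n', _, h4⟩ := (h (L + 1)).1 (L + 1) (by omega) le_rfl
    refine ⟨n', ?_, by push_cast at h4; omega⟩
    by_contra h5
    have := h2 n' (by omega)
    push_cast at h4
    omega
  -- finitely many zeros
  have hfin : ∃ n0, ∀ n ≥ n0, q n ≠ 0 := by
    by_contra hcon
    push Not at hcon
    have : ∀ j : ℕ, ∃ n, j ≤ ((Finset.range (n + 1)).filter (fun k => q k = 0)).card := by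
      intro j
      induction j with
      | zero => exact ⟨0, Nat.zero_le _⟩
      | succ j ih =>
        obtain ⟨n, hn⟩ := ih
        obtain ⟨n', hn', h0⟩ := hcon (n + 1)
        refine ⟨n', ?_⟩
        have hsub : insert n' ((Finset.range (n + 1)).filter (fun k => q k = 0)) ⊆
            (Finset.range (n' + 1)).filter (fun k => q k = 0) := by
          intro x hx
          simp only [Finset.mem_insert, Finset.mem_filter, Finset.mem_range] at hx ⊢
          rcases hx with rfl | ⟨h1, h2⟩
          · exact ⟨by omega, h0⟩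
          · exact ⟨by omega, h2⟩
        have hc := Finset.card_le_card hsub
        rw [Finset.card_insert_of_notMem] at hc
        · omega
        · simp only [Finset.mem_filter, Finset.mem_range, not_and]
          intro h1
          omega
    obtain ⟨n, hn⟩ := this (K + 1)
    have := hcard n
    omega
  obtain ⟨n0, hn0⟩ := hfin
  refine ⟨n0, fun n hn => ?_⟩
  by_contra hneg
  obtain ⟨n', h1, h2⟩ := hup n
  obtain ⟨k, hk, hk0⟩ := exists_zero hs h1.le (by omega) h2.le
  exact hn0 k (hn.trans hk) hk0

end Pool.Agent.H97.ERW
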