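import Pool.Agent.H97.ERW.Defs

set_option autoImplicit false

/-! Finite-dimensional laws of an excited random walk. -/

open Filter Topology MeasureTheory ProbabilityTheory

namespace Pool.Agent.H97.ERW

/-- Two laws on a countable path space that agree on cylinders are equal. -/
theorem law_ext {S : Type*} [Countable S] [MeasurableSpace S] [MeasurableSingletonClass S]
    (ν₁ ν₂ : Measure (ℕ → S)) [IsProbabilityMeasure ν₁] [IsProbabilityMeasure ν₂]
    (h : ∀ (n : ℕ) (y : ℕ → S), ν₁ {x | ∀ k ≤ n, x k = y k} = ν₂ {x | ∀ k ≤ n, x k = y k}) :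
    ν₁ = ν₂ := by
  have h1 : ∀ n, ν₂.map (Preorder.frestrictLe (π := fun _ => S) n)
      = ν₁.map (Preorder.frestrictLe (π := fun _ => S) n) := by
    intro n
    rw [Measure.ext_iff_singleton]
    intro y
    rw [Measure.map_apply (by fun_prop) (measurableSet_singleton _),
      Measure.map_apply (by fun_prop) (measurableSet_singleton _)]
    have h2 : (Preorder.frestrictLe (π := fun _ => S) n) ⁻¹' {y} =
        {x : ℕ → S | ∀ k ≤ n, x k = y ⟨min k n, by simp⟩} := by
      ext x
      simp only [Set.mem_preimage, Set.mem_singleton_iff, Set.mem_ofPred_eq]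
      constructor
      · intro hx k hk
        rw [← hx]
        simp [Preorder.frestrictLe, hk]
      · intro hx
        funext k
        have hk : (k : ℕ) ≤ n := Finset.mem_Iic.1 k.2
        have := hx k hk
        simp only [Preorder.frestrictLe, Finset.restrict]
        rw [this]
        congr 1
        exact Subtype.ext (min_eq_left hk)
    rw [h2]
    exact (h n _).symm
  have hproj : IsProjectiveMeasureFamily (α := fun _ => S) (fun I : Finset ℕ => ν₁.map (I.restrict (π := fun _ => S))) := by
    intro I J hJI
    simp only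
    rw [Measure.map_map (by fun_prop) (by fun_prop)]
    rfl
  have l1 : IsProjectiveLimit (α := fun _ => S) ν₁ (fun I : Finset ℕ => ν₁.map (I.restrict (π := fun _ => S))) :=
    fun I => rfl
  have l2 : IsProjectiveLimit (α := fun _ => S) ν₂ (fun I : Finset ℕ => ν₁.map (I.restrict (π := fun _ => S))) :=
    (isProjectiveLimit_nat_iff hproj ν₂).2 h1
  exact l1.unique l2

variable {Ω : Type*} [MeasurableSpace Ω] {d : ℕ} {P : Measure Ω} {ω : Ω → Env d}
  {X : ℕ → Ω → Site d}

/-- The path with steps `s`. -/
def yy (s : ℕ → Dir d) (k : ℕ) : Site d := ∑ i ∈ Finset.range k, unit (s i)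

lemma yy_succ (s : ℕ → Dir d) (k : ℕ) : yy s (k + 1) = yy s k + unit (s k) := by
  simp [yy, Finset.sum_range_succ]

lemma unit_injective : Function.Injective (unit : Dir d → Site d) := by
  rintro ⟨i, b⟩ ⟨j, c⟩ h
  unfold unit at h
  simp only at h
  have hij : i = j := by
    by_contra hne
    have := congrFun h i
    rw [Pi.single_eq_same, Pi.single_eq_of_ne hne] at this
    split_ifs at this <;> omega
  subst hij
  have := congrFun h i
  rw [Pi.single_eq_same, Pi.single_eq_same] at this
  have hbc : b = c := by
    cases b <;> cases c <;> simp_all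
  rw [hbc]

/-- The weight of a path in an environment. -/
noncomputable def wt (s : ℕ → Dir d) (n : ℕ) (w : Env d) : ENNReal :=
  ∏ k ∈ Finset.range n, ENNReal.ofReal (w (yy s k) (visits (yy s) k) (s k))

lemma measurable_wt (s : ℕ → Dir d) (n : ℕ) : Measurable (wt s n) := by
  unfold wt
  refine Finset.measurable_prod _ fun k _ => ?_
  fun_prop

/-- The event that the walk follows the path with steps `s` up to time `n`. -/
def EE (X : ℕ → Ω → Site d) (s : ℕ → Dir d) (n : ℕ) : Set Ω := {a | ∀ k ≤ n, X k a = yy s k}

lemma measurableSet_EE (hX : ∀ n, Measurable (X n)) (s : ℕ → Dir d) (n : ℕ) :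
    MeasurableSet (EE X s n) := by
  have : EE X s n = ⋂ k : ℕ, ⋂ _ : k ≤ n, (X k) ⁻¹' {yy s k} := by
    ext a; simp [EE]
  rw [this]
  exact MeasurableSet.iInter fun k => MeasurableSet.iInter fun _ => hX k (measurableSet_singleton _)

lemma measurableSet_history (s : ℕ → Dir d) (n : ℕ) {A : Set (Env d)} (hA : MeasurableSet A) :
    MeasurableSet[history ω X n] (EE X s n ∩ ω ⁻¹' A) := by
  refine ⟨{p : Env d × (Fin (n + 1) → Site d) | (∀ k : Fin (n + 1), p.2 k = yy s k) ∧ p.1 ∈ A},
    ?_, ?_⟩
  · have : {p : Env d × (Fin (n + 1) → Site d) | (∀ k : Fin (n + 1), p.2 k = yy s k) ∧ p.1 ∈ A}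
        = (⋂ k : Fin (n + 1), (fun p : Env d × (Fin (n + 1) → Site d) => p.2 k) ⁻¹' {yy s k}) ∩
          Prod.fst ⁻¹' A := by
      ext p; simp
    rw [this]
    refine (MeasurableSet.iInter fun k => ?_).inter (measurable_fst hA)
    have h : Measurable (fun p : Env d × (Fin (n + 1) → Site d) => p.2 k) := by fun_prop
    exact h (measurableSet_singleton _)
  · ext a
    simp only [Set.mem_preimage, Set.mem_ofPred_eq, EE, Set.mem_inter_iff]
    constructor
    · rintro ⟨h1, h2⟩
      exact ⟨fun k hk => h1 ⟨k, by omega⟩, h2⟩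
    · rintro ⟨h1, h2⟩
      exact ⟨fun k => h1 k (by omega), h2⟩

lemma visits_congr {x y : ℕ → Site d} {n : ℕ} (h : ∀ k ≤ n, x k = y k) :
    visits x n = visits y n := by
  unfold visits
  congr 1
  apply Finset.filter_congr
  intro k hk
  rw [h k (Finset.mem_range.1 hk).le, h n le_rfl]

theorem restrict_map (hX : IsERW P ω X) (s : ℕ → Dir d) (n : ℕ) :
    (P.restrict (EE X s n)).map ω = (P.map ω).withDensity (wt s n) := by
  have hprob := hX.prob
  have hω := hX.measurable_env
  induction n with
  | zero =>
    have h1 : EE X s 0 =ᵐ[P] (Set.univ : Set Ω) := by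
      rw [ae_eq_univ]
      have h2 := hX.start
      rw [ae_iff] at h2
      refine measure_mono_null ?_ h2
      intro a ha
      simp only [EE, Set.mem_compl_iff, Set.mem_ofPred_eq] at ha ⊢
      intro h3
      apply ha
      intro k hk
      obtain rfl : k = 0 := by omega
      simp [h3, yy]
    rw [Measure.restrict_congr_set h1, Measure.restrict_univ]
    have h3 : wt s 0 = (1 : Env d → ENNReal) := by
      funext w; simp [wt]
    rw [h3, withDensity_one]
  | succ n ih =>
    ext A hA
    rw [Measure.map_apply hω hA, Measure.restrict_apply (hω hA), withDensity_apply _ hA]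
    set F : Env d → ENNReal := fun w =>
      ENNReal.ofReal (w (yy s n) (visits (yy s) n) (s n)) with hF
    have hFm : Measurable F := by rw [hF]; fun_prop
    -- right-hand side
    have h1 : ∫⁻ w in A, wt s (n + 1) w ∂(P.map ω)
        = ∫⁻ w in A, F w ∂((P.restrict (EE X s n)).map ω) := by
      rw [ih, setLIntegral_withDensity_eq_setLIntegral_mul _ (measurable_wt s n) hFm hA]
      refine lintegral_congr fun w => ?_
      simp only [Pi.mul_apply, wt, Finset.prod_range_succ, hF]
    rw [h1, setLIntegral_map hA hFm hω, Measure.restrict_restrict (hω hA)]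
    -- left-hand side
    set S : Set Ω := EE X s n ∩ ω ⁻¹' A with hS
    have hSm : MeasurableSet[history ω X n] S := measurableSet_history s n hA
    have hle : history ω X n ≤ (inferInstance : MeasurableSpace Ω) := by
      refine Measurable.comap_le ?_
      have := hX.measurable_walk
      fun_prop
    have hSm' : MeasurableSet S := hle S hSm
    set D : Set Ω := {a | X (n + 1) a = X n a + unit (s n)} with hD
    have hDm : MeasurableSet D := by
      have h2 := hX.measurable_walk (n + 1)
      have h3 := hX.measurable_walk n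
      exact measurableSet_eq_fun h2 (h3.add_const _)
    have h2 : ω ⁻¹' A ∩ EE X s (n + 1) = S ∩ D := by
      ext a
      simp only [EE, hS, hD, Set.mem_inter_iff, Set.mem_preimage, Set.mem_ofPred_eq]
      constructor
      · rintro ⟨h3, h4⟩
        refine ⟨⟨fun k hk => h4 k (by omega), h3⟩, ?_⟩
        rw [h4 (n + 1) le_rfl, h4 n (by omega), yy_succ]
      · rintro ⟨⟨h3, h4⟩, h5⟩
        refine ⟨h4, fun k hk => ?_⟩
        rcases Nat.lt_or_ge k (n + 1) with h6 | h6
        · exact h3 k (by omega)
        · obtain rfl : k = n + 1 := by omega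
          rw [h5, h3 n le_rfl, yy_succ]
    rw [h2, Set.inter_comm (ω ⁻¹' A) (EE X s n), ← hS]
    -- conditional expectation
    set g : Ω → ℝ := fun a => ω a (X n a) (visits (fun k => X k a) n) (s n) with hg
    set f : Ω → ℝ := fun a => ω a (yy s n) (visits (yy s) n) (s n) with hf
    have hgf : ∀ a ∈ S, g a = f a := by
      intro a ha
      have h3 : ∀ k ≤ n, X k a = yy s k := ha.1
      simp only [hg, hf]
      rw [visits_congr h3, h3 n le_rfl]
    have hind : Integrable (D.indicator (fun _ => (1 : ℝ))) P :=
      (integrable_const _).indicator hDm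
    have h3 : ∫ a in S, g a ∂P = ∫ a in S, D.indicator (fun _ => (1 : ℝ)) a ∂P := by
      rw [← setIntegral_condExp hle hind hSm]
      refine setIntegral_congr_ae hSm' ?_
      filter_upwards [hX.step n (s n)] with a ha _
      exact ha.symm
    have h4 : ∫ a in S, D.indicator (fun _ => (1 : ℝ)) a ∂P = (P (S ∩ D)).toReal := by
      rw [integral_indicator hDm, Measure.restrict_restrict hDm]
      simp [Measure.real, Set.inter_comm]
    have h5 : ∫ a in S, g a ∂P = ∫ a in S, f a ∂P := setIntegral_congr_fun hSm' hgf
    have hgi : Integrable g P := by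
      have := (integrable_condExp (μ := P) (m := history ω X n)
        (f := D.indicator (fun _ => (1 : ℝ))))
      exact this.congr (hX.step n (s n))
    have hfi : IntegrableOn f S P := hgi.integrableOn.congr_fun hgf hSm'
    have hfn : 0 ≤ᵐ[P.restrict S] f := by
      apply ae_restrict_of_ae
      filter_upwards [hX.cookie_nonneg] with a ha
      exact ha _ _ _
    have h6 : ENNReal.ofReal (∫ a in S, f a ∂P) = ∫⁻ a in S, ENNReal.ofReal (f a) ∂P :=
      ofReal_integral_eq_lintegral_ofReal hfi hfn
    rw [← h6, ← h5, h3, h4, ENNReal.ofReal_toReal (measure_ne_top _ _)]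

theorem measure_EE (hX : IsERW P ω X) (s : ℕ → Dir d) (n : ℕ) :
    P (EE X s n) = ∫⁻ a, wt s n (ω a) ∂P := by
  have h : ((P.restrict (EE X s n)).map ω) Set.univ
      = ((P.map ω).withDensity (wt s n)) Set.univ := by rw [restrict_map hX s n]
  rw [Measure.map_apply hX.measurable_env MeasurableSet.univ, withDensity_apply _ MeasurableSet.univ,
    Measure.restrict_univ, lintegral_map (measurable_wt s n) hX.measurable_env] at h
  simpa using h

theorem ae_step (hX : IsERW P ω X) :
    ∀ᵐ a ∂P, ∀ n, ∃ s : Dir d, X (n + 1) a = X n a + unit s := by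
  have hprob := hX.prob
  rw [ae_all_iff]
  intro n
  set D : Dir d → Set Ω := fun s => {a | X (n + 1) a = X n a + unit s} with hD
  have hDm : ∀ s, MeasurableSet (D s) := by
    intro s
    have h2 := hX.measurable_walk (n + 1)
    have h3 := hX.measurable_walk n
    exact measurableSet_eq_fun h2 (h3.add_const _)
  have hle : history ω X n ≤ (inferInstance : MeasurableSpace Ω) := by
    refine Measurable.comap_le ?_
    have h1 := hX.measurable_walk
    have h2 := hX.measurable_env
    fun_prop
  have hind : ∀ s, Integrable ((D s).indicator (fun _ => (1 : ℝ))) P := fun s =>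
    (integrable_const _).indicator (hDm s)
  have h1 : ∀ s, (P (D s)).toReal = ∫ a, ω a (X n a) (visits (fun k => X k a) n) s ∂P := by
    intro s
    have h2 := integral_condExp (μ := P) (f := (D s).indicator (fun _ => (1 : ℝ))) hle
    rw [integral_congr_ae (hX.step n s)] at h2
    rw [h2, integral_indicator (hDm s)]
    simp [Measure.real]
  have hgi : ∀ s, Integrable (fun a => ω a (X n a) (visits (fun k => X k a) n) s) P := by
    intro s
    have := (integrable_condExp (μ := P) (m := history ω X n)
      (f := (D s).indicator (fun _ => (1 : ℝ))))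
    exact this.congr (hX.step n s)
  have h2 : ∑ s, (P (D s)).toReal = 1 := by
    simp_rw [h1]
    rw [← integral_finsetSum _ (fun s _ => hgi s)]
    have h3 : (fun a => ∑ s, ω a (X n a) (visits (fun k => X k a) n) s) =ᵐ[P] fun _ => (1 : ℝ) := by
      filter_upwards [hX.cookie_sum] with a ha
      exact ha _ _
    rw [integral_congr_ae h3]
    simp
  have hdisj : Pairwise (Function.onFun Disjoint D) := by
    intro s t hst
    rw [Function.onFun, Set.disjoint_left]
    intro a h3 h4
    apply hst
    apply unit_injective
    simp only [hD, Set.mem_ofPred_eq] at h3 h4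
    exact add_left_cancel (h3.symm.trans h4)
  have h3 : P (⋃ s, D s) = 1 := by
    rw [measure_iUnion hdisj hDm, tsum_fintype]
    have h4 : (∑ s, P (D s)).toReal = 1 := by
      rw [ENNReal.toReal_sum (fun s _ => measure_ne_top _ _)]
      exact h2
    have h5 : (∑ s, P (D s)) ≠ ⊤ := by
      intro h; rw [h] at h4; simp at h4
    rw [← ENNReal.ofReal_toReal h5, h4, ENNReal.ofReal_one]
  have h4 : ∀ᵐ a ∂P, a ∈ ⋃ s, D s := by
    rw [← prob_compl_eq_zero_iff (MeasurableSet.iUnion hDm)] at h3
    exact h3
  filter_upwards [h4] with a ha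
  simpa [hD] using ha

end Pool.Agent.H97.ERW
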