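import Pool.Agent.H97.ERW.Levels

set_option autoImplicit false

/-! Topological facts on the space of stacks. -/

open Filter Topology MeasureTheory

namespace Pool.Agent.H97.ERW

section Topo

variable {V A : Type*} [AddCommGroup V] [DecidableEq V] (vec : A → V) (lev : V →+ ℤ)
variable [TopologicalSpace A] [DiscreteTopology A]

lemma continuous_G : Continuous (G vec : Stacks V A → Stacks V A) := by
  refine continuous_pi fun z => continuous_pi fun i => ?_
  have h : Continuous (fun p : A × Stacks V A =>
      (if z + vec p.1 = 0 then fun i => p.2 0 (i + 1) else p.2 (z + vec p.1)) i) := by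
    rw [continuous_prod_of_discrete_left]
    intro a
    by_cases hz : z + vec a = 0
    · simp only [hz, if_true]
      fun_prop
    · simp only [hz, if_false]
      fun_prop
  have h2 : Continuous (fun ξ : Stacks V A => (ξ 0 0, ξ)) := by fun_prop
  exact h.comp h2

lemma continuous_iterate_G (n : ℕ) : Continuous ((G vec)^[n] : Stacks V A → Stacks V A) :=
  (continuous_G vec).iterate n

lemma continuous_arrow (n : ℕ) : Continuous (fun ξ : Stacks V A => (G vec)^[n] ξ 0 0) := by
  have := continuous_iterate_G (A := A) vec n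
  fun_prop

lemma continuous_pos [TopologicalSpace V] [DiscreteTopology V] (n : ℕ) :
    Continuous (fun ξ : Stacks V A => pos vec n ξ) := by
  induction n with
  | zero => simp only [pos_zero]; fun_prop
  | succ n ih =>
    simp only [pos_succ]
    have h1 : Continuous (fun ξ : Stacks V A => vec ((G vec)^[n] ξ 0 0)) :=
      continuous_of_discreteTopology.comp (continuous_arrow vec n)
    have h2 : Continuous (fun p : V × V => p.1 + p.2) := continuous_of_discreteTopology
    exact h2.comp (ih.prodMk h1)

lemma continuous_lp (n : ℕ) : Continuous (fun ξ : Stacks V A => lp vec lev ξ n) := by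
  let _ : TopologicalSpace V := ⊥
  have : DiscreteTopology V := ⟨rfl⟩
  exact (continuous_of_discreteTopology (f := lev)).comp (continuous_pos vec n)

lemma isClopen_Oset {a : ℕ → ℕ} (ha : Monotone a) (K L : ℕ) :
    IsClopen (Oset (A := A) vec lev a K L) := by
  let Φ : Stacks V A → (Fin (a L + 1) → ℤ) := fun ξ n => lp vec lev ξ n
  have hΦ : Continuous Φ := continuous_pi fun n => continuous_lp vec lev n
  have h : Oset (A := A) vec lev a K L =
      Φ ⁻¹' {y | OP a K L (fun n => if h : n < a L + 1 then y ⟨n, h⟩ else 0)} := by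
    ext ξ
    simp only [Oset, Set.mem_ofPred_eq, Set.mem_preimage]
    have hc : ∀ n ≤ a L, lp vec lev ξ n
        = (fun n => if h : n < a L + 1 then Φ ξ ⟨n, h⟩ else 0) n := by
      intro n hn
      simp only
      rw [dif_pos (by omega)]
    exact ⟨fun h => OP.congr ha hc h, fun h => OP.congr ha (fun n hn => (hc n hn).symm) h⟩
  rw [h]
  exact (isClopen_discrete _).preimage hΦ

lemma continuous_join (m : ℤ) :
    Continuous (fun p : Stacks V A × Stacks V A => join lev m p.1 p.2) := by
  refine continuous_pi fun z => continuous_pi fun i => ?_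
  unfold join
  split_ifs <;> fun_prop

lemma continuous_join_right (m : ℤ) (l : Stacks V A) :
    Continuous (fun r : Stacks V A => join lev m l r) := by
  have h : Continuous (fun r : Stacks V A => (l, r)) := by fun_prop
  exact (continuous_join (A := A) lev m).comp h

/-- Lower semicontinuity in the left stacks of the limiting event. -/
lemma eventually_mem_Oinf {a : ℕ → ℕ} (ha' : ∀ L, L ≤ a L) (hlev : ∀ s, lev (vec s) ≤ 1)
    {K : ℕ} {u : ℕ → Stacks V A} {l : Stacks V A} (hu : Tendsto u atTop (𝓝 l)) (r : Stacks V A)
    (h : join lev 0 l r ∈ Oinf vec lev a K) :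
    ∀ᶠ k in atTop, join lev 0 (u k) r ∈ Oinf vec lev a K := by
  obtain ⟨n0, hn0⟩ := Oinf_sub vec lev hlev ha' h
  have h1 : Tendsto (fun k => join lev 0 (u k) r) atTop (𝓝 (join lev 0 l r)) := by
    have := (continuous_join (A := A) lev 0).tendsto (l, r)
    exact this.comp (hu.prodMk_nhds tendsto_const_nhds)
  have h2 : ∀ᶠ k in atTop, ∀ i < n0,
      (G vec)^[i] (join lev 0 l r) 0 0 = (G vec)^[i] (join lev 0 (u k) r) 0 0 := by
    have h3 : ∀ i ∈ Finset.range n0, ∀ᶠ k in atTop,
        (G vec)^[i] (join lev 0 l r) 0 0 = (G vec)^[i] (join lev 0 (u k) r) 0 0 := by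
      intro i _
      have h4 := ((continuous_arrow (A := A) vec i).tendsto _).comp h1
      rw [nhds_discrete] at h4
      have h5 := tendsto_pure.1 h4
      filter_upwards [h5] with k hk using hk.symm
    have := (Finset.eventually_all _).2 h3
    filter_upwards [this] with k hk i hi using hk i (by simpa using hi)
  filter_upwards [h2] with k hk
  have h5 : ∀ n, pos vec n (join lev 0 l r) = pos vec n (join lev 0 (u k) r) := by
    intro n
    refine (coincide vec {y | 0 ≤ lev y} ?_ n ?_).1
    · intro y hy
      rw [join_of_le lev (by simpa using hy), join_of_le lev (by simpa using hy)]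
    · intro i _
      rcases Nat.lt_or_ge i n0 with h6 | h6
      · exact Or.inr (hk i h6)
      · left
        exact hn0 i h6
  have h6 : lp vec lev (join lev 0 (u k) r) = lp vec lev (join lev 0 l r) := by
    funext n
    unfold lp
    rw [h5 n]
  rw [Oinf, Set.mem_iInter] at h ⊢
  intro L
  have := h L
  simp only [Oset, Set.mem_ofPred_eq] at this ⊢
  rwa [h6]

end Topo

section Meas

variable {V A : Type*} [AddCommGroup V] [DecidableEq V] [Countable V] (vec : A → V)
  (lev : V →+ ℤ)
variable [Finite A] [TopologicalSpace A] [DiscreteTopology A] [MeasurableSpace A]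
  [DiscreteMeasurableSpace A]

example : BorelSpace (Stacks V A) := inferInstance
example : CompactSpace (Stacks V A) := inferInstance
example : FirstCountableTopology (Stacks V A) := inferInstance

/-- The conditional probability of an event given the left stacks. -/
noncomputable def Psi (μ : Measure (Stacks V A)) (S : Set (Stacks V A)) (l : Stacks V A) :
    ENNReal := μ {r | join lev 0 l r ∈ S}

lemma tendsto_Psi (μ : Measure (Stacks V A)) [IsProbabilityMeasure μ] {S : Set (Stacks V A)}
    (hS : IsClopen S) {u : ℕ → Stacks V A} {l : Stacks V A} (hu : Tendsto u atTop (𝓝 l)) :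
    Tendsto (fun k => Psi lev μ S (u k)) atTop (𝓝 (Psi lev μ S l)) := by
  apply tendsto_measure_of_tendsto_indicator_of_isFiniteMeasure
  · intro k
    have h : Continuous (fun r => join lev 0 (u k) r) := continuous_join_right lev 0 (u k)
    exact (hS.preimage h).isClosed.measurableSet
  · intro r
    have h1 : Tendsto (fun k => join lev 0 (u k) r) atTop (𝓝 (join lev 0 l r)) := by
      have := (continuous_join (A := A) lev 0).tendsto (l, r)
      exact this.comp (hu.prodMk_nhds tendsto_const_nhds)
    by_cases hr : join lev 0 l r ∈ S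
    · filter_upwards [h1.eventually (hS.isOpen.mem_nhds hr)] with k hk
      exact ⟨fun _ => hr, fun _ => hk⟩
    · filter_upwards [h1.eventually (hS.compl.isOpen.mem_nhds hr)] with k hk
      exact ⟨fun h => absurd h hk, fun h => absurd h hr⟩

theorem uniform (μ : Measure (Stacks V A)) [IsProbabilityMeasure μ] {a : ℕ → ℕ}
    (ha : Monotone a) (ha' : ∀ L, L ≤ a L) (hlev : ∀ s, lev (vec s) ≤ 1) (K : ℕ)
    {ε : ENNReal} (hε : ε ≠ 0) :
    ∃ L, ∀ l, Psi lev μ (Oset vec lev a K L) l ≤ Psi lev μ (Oinf vec lev a K) l + ε := by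
  by_contra hcon
  push Not at hcon
  choose v hv using hcon
  obtain ⟨l, φ, hφ, hl⟩ := CompactSpace.tendsto_subseq v
  set u : ℕ → Stacks V A := v ∘ φ with hu
  have hanti : ∀ {n L : ℕ}, n ≤ L → ∀ x, Psi lev μ (Oset vec lev a K L) x
      ≤ Psi lev μ (Oset vec lev a K n) x := by
    intro n L hnL x
    exact measure_mono fun r hr => OP.anti ha hnL hr
  have hclosed : MeasurableSet (Oinf (A := A) vec lev a K) :=
    MeasurableSet.iInter fun L => (isClopen_Oset vec lev ha K L).isClosed.measurableSet
  -- main inequality
  have hmain : ∀ n, Psi lev μ (Oinf vec lev a K) l + ε ≤ Psi lev μ (Oset vec lev a K n) l := by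
    intro n
    set E : ℕ → Set (Stacks V A) := fun N =>
      {r | ∀ k ≥ N, join lev 0 (u k) r ∈ Oinf vec lev a K} with hE
    have hEmono : Monotone E := by
      intro N N' hNN r hr k hk
      exact hr k (hNN.trans hk)
    have h1 : Psi lev μ (Oinf vec lev a K) l ≤ ⨆ N, μ (E N) := by
      rw [← hEmono.measure_iUnion]
      apply measure_mono
      intro r hr
      have := eventually_mem_Oinf vec lev ha' hlev hl r hr
      rw [eventually_atTop] at this
      obtain ⟨N, hN⟩ := this
      exact Set.mem_iUnion.2 ⟨N, hN⟩
    have h2 : ∀ N, μ (E N) + ε ≤ Psi lev μ (Oset vec lev a K n) l := by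
      intro N
      refine ge_of_tendsto (tendsto_Psi lev μ (isClopen_Oset vec lev ha K n) hl) ?_
      filter_upwards [eventually_ge_atTop N, eventually_ge_atTop n] with k hk hkn
      have h3 : n ≤ φ k := hkn.trans (hφ.id_le k)
      calc μ (E N) + ε ≤ Psi lev μ (Oinf vec lev a K) (u k) + ε := by
            gcongr
            exact measure_mono fun r hr => hr k hk
        _ ≤ Psi lev μ (Oset vec lev a K (φ k)) (u k) := (hv (φ k)).le
        _ ≤ Psi lev μ (Oset vec lev a K n) (u k) := hanti h3 _
    calc Psi lev μ (Oinf vec lev a K) l + ε ≤ (⨆ N, μ (E N)) + ε := by gcongr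
      _ = ⨆ N, (μ (E N) + ε) := ENNReal.iSup_add _
      _ ≤ _ := iSup_le h2
  have hlim : Tendsto (fun n => Psi lev μ (Oset vec lev a K n) l) atTop
      (𝓝 (Psi lev μ (Oinf vec lev a K) l)) := by
    have hc : Continuous (fun r => join lev 0 l r) := continuous_join_right lev 0 l
    have h1 := tendsto_measure_iInter_atTop (μ := μ)
      (s := fun n => {r | join lev 0 l r ∈ Oset vec lev a K n})
      (fun n => ((isClopen_Oset vec lev ha K n).preimage hc).isClosed.measurableSet.nullMeasurableSet)
      (fun n L hnL r hr => OP.anti ha hnL hr) ⟨0, measure_ne_top _ _⟩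
    have h2 : (⋂ n, {r | join lev 0 l r ∈ Oset vec lev a K n})
        = {r | join lev 0 l r ∈ Oinf vec lev a K} := by
      ext r; simp [Oinf]
    rw [h2] at h1
    exact h1
  have h3 := ge_of_tendsto' hlim hmain
  have h4 : Psi lev μ (Oinf vec lev a K) l ≠ ⊤ := measure_ne_top _ _
  have h5 : Psi lev μ (Oinf vec lev a K) l < Psi lev μ (Oinf vec lev a K) l + ε :=
    ENNReal.lt_add_right h4 hε
  exact absurd h3 (not_le.2 h5)

end Meas

end Pool.Agent.H97.ERW
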