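import Mathlib

set_option autoImplicit false

/-! Deterministic part: the walk driven by stacks of arrows, seen from the walker. -/

open Filter Topology

namespace Pool.Agent.H97.ERW

/-- Stacks of arrows: `ξ z i` is the `i`-th arrow at the site `z`. -/
abbrev Stacks (V A : Type*) := V → ℕ → A

section Walk

variable {V A : Type*} [AddCommGroup V] [DecidableEq V] (vec : A → V)

/-- Translate the stacks by `x`. -/
def shiftBy (x : V) (ξ : Stacks V A) : Stacks V A := fun z => ξ (z + x)

/-- Use the first arrow at `0` and look at the remaining stacks from the new position. -/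
def G (ξ : Stacks V A) : Stacks V A := fun z =>
  if z + vec (ξ 0 0) = 0 then fun i => ξ 0 (i + 1) else ξ (z + vec (ξ 0 0))

lemma G_apply (ξ : Stacks V A) (z : V) :
    G vec ξ z = if z + vec (ξ 0 0) = 0 then fun i => ξ 0 (i + 1) else ξ (z + vec (ξ 0 0)) := rfl

/-- The position at time `n` of the walk driven by the stacks `ξ`, started at `0`. -/
def pos (n : ℕ) (ξ : Stacks V A) : V := ∑ k ∈ Finset.range n, vec ((G vec)^[k] ξ 0 0)

@[simp] lemma pos_zero (ξ : Stacks V A) : pos vec 0 ξ = 0 := by simp [pos]

lemma pos_succ (n : ℕ) (ξ : Stacks V A) :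
    pos vec (n + 1) ξ = pos vec n ξ + vec ((G vec)^[n] ξ 0 0) := by
  simp [pos, Finset.sum_range_succ]

lemma pos_add (n k : ℕ) (ξ : Stacks V A) :
    pos vec (n + k) ξ = pos vec n ξ + pos vec k ((G vec)^[n] ξ) := by
  induction k with
  | zero => simp
  | succ k ih =>
    rw [← Nat.add_assoc, pos_succ, ih, pos_succ, add_assoc, ← Function.iterate_add_apply,
      Nat.add_comm k n]

/-- Two stacks that agree on a set `S` of sites drive the same walk as long as each step is either
made from a site of `S` or uses the same arrow. -/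
lemma coincide (S : Set V) {ξ ξ' : Stacks V A} (hS : ∀ y ∈ S, ξ y = ξ' y) (n : ℕ)
    (h : ∀ k < n, pos vec k ξ ∈ S ∨ (G vec)^[k] ξ 0 0 = (G vec)^[k] ξ' 0 0) :
    pos vec n ξ = pos vec n ξ' ∧
      ∀ z, z + pos vec n ξ ∈ S → (G vec)^[n] ξ z = (G vec)^[n] ξ' z := by
  induction n with
  | zero => simpa using hS
  | succ n ih =>
    obtain ⟨h1, h2⟩ := ih (fun k hk => h k (hk.trans (Nat.lt_succ_self n)))
    have h3 : (G vec)^[n] ξ 0 0 = (G vec)^[n] ξ' 0 0 := by
      rcases h n (Nat.lt_succ_self n) with h4 | h4
      · rw [h2 0 (by simpa using h4)]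
      · exact h4
    refine ⟨by rw [pos_succ, pos_succ, h1, h3], fun z hz => ?_⟩
    rw [pos_succ] at hz
    rw [Function.iterate_succ_apply', Function.iterate_succ_apply', G_apply, G_apply, ← h3]
    split_ifs with h5
    · have h6 : pos vec n ξ ∈ S := by
        have : z + (pos vec n ξ + vec ((G vec)^[n] ξ 0 0)) = pos vec n ξ := by
          rw [add_comm (pos vec n ξ), ← add_assoc, h5, zero_add]
        rwa [this] at hz
      funext i
      exact congrFun (h2 0 (by simpa using h6)) (i + 1)
    · refine h2 _ ?_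
      rwa [add_assoc, add_comm (vec _)]

/-- At sites that have not been visited the stacks are untouched. -/
lemma unvisited (U : Set V) {ξ : Stacks V A} (n : ℕ) (h : ∀ k < n, pos vec k ξ ∉ U) :
    ∀ z, z + pos vec n ξ ∈ U → (G vec)^[n] ξ z = ξ (z + pos vec n ξ) := by
  induction n with
  | zero => simp
  | succ n ih =>
    have h2 := ih (fun k hk => h k (hk.trans (Nat.lt_succ_self n)))
    intro z hz
    rw [pos_succ] at hz ⊢
    rw [Function.iterate_succ_apply', G_apply]
    split_ifs with h5
    · exfalso
      have : z + (pos vec n ξ + vec ((G vec)^[n] ξ 0 0)) = pos vec n ξ := by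
        rw [add_comm (pos vec n ξ), ← add_assoc, h5, zero_add]
      rw [this] at hz
      exact h n (Nat.lt_succ_self n) hz
    · have h6 : z + vec ((G vec)^[n] ξ 0 0) + pos vec n ξ
          = z + (pos vec n ξ + vec ((G vec)^[n] ξ 0 0)) := by
        rw [add_assoc, add_comm (vec _)]
      rw [h2 _ (by rwa [h6]), h6]

/-- Number of visits to `y` before time `n`. -/
def cnt (n : ℕ) (ξ : Stacks V A) (y : V) : ℕ :=
  ((Finset.range n).filter (fun k => pos vec k ξ = y)).card

lemma cnt_succ (n : ℕ) (ξ : Stacks V A) (y : V) :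
    cnt vec (n + 1) ξ y = cnt vec n ξ y + if pos vec n ξ = y then 1 else 0 := by
  unfold cnt
  rw [Finset.range_add_one, Finset.filter_insert]
  split_ifs with h
  · rw [Finset.card_insert_of_notMem (by simp)]
  · simp

lemma iterate_G (n : ℕ) (ξ : Stacks V A) (z : V) (i : ℕ) :
    (G vec)^[n] ξ z i = ξ (z + pos vec n ξ) (i + cnt vec n ξ (z + pos vec n ξ)) := by
  induction n generalizing z i with
  | zero => simp [cnt]
  | succ n ih =>
    rw [Function.iterate_succ_apply']
    have h0 : vec ((G vec)^[n] ξ 0 0) = pos vec (n + 1) ξ - pos vec n ξ := by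
      rw [pos_succ]; abel
    rw [G_apply, h0]
    split_ifs with h5
    · have h6 : z + pos vec (n + 1) ξ = pos vec n ξ := by
        have := congrArg (fun w => w + pos vec n ξ) h5
        simp only [zero_add] at this
        rw [← this]; abel
      show (G vec)^[n] ξ 0 (i + 1) = _
      rw [ih 0 (i + 1), zero_add, h6, cnt_succ, if_pos rfl]
      congr 1
      ring
    · have h6 : z + (pos vec (n + 1) ξ - pos vec n ξ) + pos vec n ξ
          = z + pos vec (n + 1) ξ := by abel
      rw [ih _ i, h6, cnt_succ]
      have h7 : ¬ pos vec n ξ = z + pos vec (n + 1) ξ := by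
        intro h
        apply h5
        rw [← add_sub_assoc, ← h, sub_self]
      rw [if_neg h7, add_zero]

lemma arrow_eq (n : ℕ) (ξ : Stacks V A) :
    (G vec)^[n] ξ 0 0 = ξ (pos vec n ξ) (cnt vec n ξ (pos vec n ξ)) := by
  rw [iterate_G]; simp

end Walk

end Pool.Agent.H97.ERW
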